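import Pool.Agent.H31.CRG.DEb

/-!
# The terms with a small relation (row DE of the board `crg_modules`)
-/

set_option autoImplicit false

open NumberField NumberField.InfinitePlace Complex Filter Topology MeasureTheory

namespace Pool.Agent.H31.CRG

open Pool.Agent.H28.RC Pool.Agent.H25.HK Pool.Agent.H37.CV Pool.Agent.H65.CRZ Pool.Agent.H65.CRG
open Pool.Agent.H94.CV.F1 (nm_top pf_top one_le_nS mem_DM xw_le)
open Pool.Agent.H21.CRZ (re1 im1 re2 im2 U_le)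

/-- the bound of the forms -/
theorem form_bd {K : Type} [Field K] [NumberField K] {CQ C₀ L lam M lw P2 : ℝ}
    (hQ : ∀ (M : ℝ) (a b : ℂ), 2 ≤ M → ‖a‖ ≤ C₀ / Real.log M → ‖b‖ ≤ C₀ / Real.log M →
      ∀ R₁ R₂ : Finset (PrI K), R₁ ⊆ PM K M → R₂ ⊆ PM K M → Disjoint R₁ R₂ → R₁.Nonempty →
      ‖QF K M a b (a + b) R₁ R₂‖ ≤
        CQ * 2 ^ (R₁.card + R₂.card) * (1 + Real.log (nS np R₁)) / Real.log M ^ 2)
    (hC₀ : 0 < C₀) (hCQ : 1 ≤ CQ) (hM : 2 ≤ M) (hL : 0 < L) (hlam : 0 < lam) (hlam1 : lam < 1)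
    (hlM : Real.log M = lam * L) {R₁ R₂ : Finset (PrI K)} (h1 : R₁ ⊆ PM K M) (h2 : R₂ ⊆ PM K M)
    (hd : Disjoint R₁ R₂) (hn : R₁.Nonempty) (hP2 : P2 = 2 ^ (R₁.card + R₂.card))
    (hlw : Real.log (nS np R₁) ≤ lw) {x y : ℂ} (hx : ‖x‖ ≤ C₀ / L) (hy : ‖y‖ ≤ C₀ / L) :
    ‖QF K M x y (x + y) R₁ R₂‖ ≤ CQ / lam ^ 2 / L ^ 2 * (P2 * (1 + lw)) := by
  have hlM0 : 0 < Real.log M := by rw [hlM]; positivity
  have hle : Real.log M ≤ L := by rw [hlM]; nlinarith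
  have hC₀M : C₀ / L ≤ C₀ / Real.log M := div_le_div_of_nonneg_left hC₀.le hlM0 hle
  refine (hQ M x y hM (hx.trans hC₀M) (hy.trans hC₀M) _ _ h1 h2 hd hn).trans ?_
  rw [← hP2, hlM]
  have hP0 : 0 < P2 := by rw [hP2]; positivity
  calc CQ * P2 * (1 + Real.log (nS np R₁)) / (lam * L) ^ 2 ≤
      CQ * P2 * (1 + lw) / (lam * L) ^ 2 := by
        refine div_le_div_of_nonneg_right ?_ (by positivity)
        exact mul_le_mul_of_nonneg_left (by linarith) (by positivity)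
    _ = _ := by
      field_simp

/-- the core of the bound, with all parameters -/
theorem core {K : Type} [Field K] [NumberField K] {E : ℂ → ℂ} {CS BS CG BG CU CQ CE C₀ c cK g
    lam e₂ a ε₁ B X₁ : ℝ} {n : ℕ} (hn : n = nrComplexPlaces K) (hn' : 1 ≤ n)
    (hside : ∀ (q : ℕ) (A M κ w : ℝ) (α β : ℂ) (u : ℝ)
      (R₁ R₂ : Finset (PrI K)), q.Prime → 0 < A →
      1 ≤ M → 1 ≤ w → ‖α‖ ≤ a / 2 → ‖β‖ ≤ a / 2 → α + β ≠ 0 → ‖α‖ * Real.log M ≤ κ →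
      ‖β‖ * Real.log M ≤ κ → Disjoint R₁ R₂ →
      ‖(∑ S ∈ DM K M, ∑ T ∈ DM K M, Wr M α β R₁ R₂ S T *
          Sn (qi K q) (1 / 2 + α + u * I) (1 / 2 + β - u * I) (Yr A w R₁ R₂ S T)) -
        1 / (α + β) * (E (1 + (α + β)) * QF K M α β (α + β) R₁ R₂ -
          (rho K : ℂ) * Gq (1 / 2 + α + u * I) (1 / 2 + β - u * I) (-((α + β) / 2)) ^
            nrComplexPlaces K * cexp ((α + β) ^ 2 / 2) *
            (((A ^ 2 / w : ℝ) : ℂ) ^ (-((α + β) / 2)) *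
              QF K M ((α - β) / 2) ((β - α) / 2) ((α - β) / 2 + (β - α) / 2) R₁ R₂))‖ ≤
      CS * (1 + |u|) ^ BS * Real.exp (6 * κ) * (2 ^ (R₁.card + R₂.card) *
        GS np (PM K M) M ^ 3) *
        ((A ^ 2 / (M ^ 2 * w)) ^ (-(1 / 8) : ℝ) / ‖α + β‖ +
          (A ^ 2 * M ^ 2) ^ a * (q : ℝ) ^ (-(1 - 2 * (a / 2) + 2 * a))))
    (hCS : 0 < CS) (hBS : 0 ≤ BS) (hCG : 0 < CG) (hBG : 0 ≤ BG)
    (hG : ∀ s w : ℂ, 1 / 4 ≤ s.re → s.re ≤ 3 / 4 → -(1 / 8) ≤ w.re → w.re ≤ 1 →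
      ‖Gamma (s + w)‖ ≤ CG * (1 + |s.im|) ^ BG * Real.exp (2 * |w.im|) * ‖Gamma s‖)
    (hGU : ∀ M : ℝ, 1 ≤ M → GS np (PM K M) M ≤ CU * (1 + Real.log M))
    (hQ : ∀ (M : ℝ) (a b : ℂ), 2 ≤ M → ‖a‖ ≤ C₀ / Real.log M → ‖b‖ ≤ C₀ / Real.log M →
      ∀ R₁ R₂ : Finset (PrI K), R₁ ⊆ PM K M → R₂ ⊆ PM K M → Disjoint R₁ R₂ → R₁.Nonempty →
      ‖QF K M a b (a + b) R₁ R₂‖ ≤
        CQ * 2 ^ (R₁.card + R₂.card) * (1 + Real.log (nS np R₁)) / Real.log M ^ 2)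
    (hCQ : 1 ≤ CQ) (hCE : ∀ z : ℂ, ‖z‖ ≤ 1 → ‖E (1 + z)‖ ≤ CE) (hc : 0 < c) (hC₀ : 0 < C₀)
    (hcK : 0 < cK) (hε : 0 < ε₁) (hlam : lam = 1 - 2 * ε₁) (hlam0 : 0 < lam)
    (hg : g = CG * 3 ^ BG * Real.exp 1) (he₂ : e₂ = min (ε₁ / 4) (1 / 2)) (ha0 : 0 < a)
    (han : a * (2 * (n : ℝ) + 2) = 1 / 4) (ha16 : a ≤ 1 / 16) (hB : B = BG * (2 * n : ℕ) + BS)
    (hX₁ : X₁ = Real.exp (C₀ * (2 * |Real.log cK| / Real.log 2 + 2 * n + 1)))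
    {q : ℕ} (hq : q.Prime) {L A M w : ℝ} (hL : L = Real.log q) (hL1 : 1 ≤ L)
    (hCa : C₀ / L ≤ a / 2) (hLlam : Real.log 2 / lam ≤ L) (hA : A = cK * (q : ℝ) ^ n)
    (hM : M = (q : ℝ) ^ lam) {α β : ℂ} (u : ℝ) (hα : ‖α‖ ≤ C₀ / L) (hβ : ‖β‖ ≤ C₀ / L)
    (hω : c / L ≤ ‖α + β‖) {R₁ R₂ : Finset (PrI K)} {δ : ℝ} (hδ : δ ≤ 2 * ε₁)
    (hδ2 : δ ≤ lam) (hw1 : 1 ≤ w) (hwδ : w ≤ (q : ℝ) ^ δ)
    (hR1 : R₁ ⊆ PM K M) (hR2 : R₂ ⊆ PM K M) (hd : Disjoint R₁ R₂) (hne : R₁.Nonempty)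
    (hlX : Real.log (nS np R₁) ≤ Real.log w) :
    ‖∑ S ∈ DM K M, ∑ T ∈ DM K M, Wr M α β R₁ R₂ S T *
          Sn (qi K q) (1 / 2 + α + u * I) (1 / 2 + β - u * I) (Yr A w R₁ R₂ S T)‖ ≤
      (1 / c * (|CE| + rho K * (g ^ 2) ^ n * Real.exp 1 * X₁) * (CQ / lam ^ 2) +
        CS * Real.exp (6 * C₀) * |CU| ^ 3 *
          (cK ^ (-(1 / 4) : ℝ) / c + cK ^ (2 * a)) * (1 + 5 / e₂) ^ 5) / L * (1 + |u|) ^ B *
        (2 ^ (R₁.card + R₂.card) * (1 + Real.log w)) := by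
  have hrho : 0 ≤ rho K := (dedekindZeta_residue_pos K).le
  have he₂0 : 0 < e₂ := by rw [he₂]; exact lt_min (by linarith) (by norm_num)
  have he₂1 : e₂ ≤ ε₁ / 4 := by rw [he₂]; exact min_le_left _ _
  have he₂2 : e₂ ≤ 1 / 2 := by rw [he₂]; exact min_le_right _ _
  have hlam1 : lam < 1 := by rw [hlam]; linarith
  have hg0 : 0 < g := by rw [hg]; positivity
  have hX₁0 : 0 < X₁ := by rw [hX₁]; positivity
  have hq2 : (2 : ℝ) ≤ q := by exact_mod_cast hq.two_le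
  have hq0 : (0 : ℝ) < q := by linarith
  have hq1 : (1 : ℝ) ≤ q := by linarith
  have hL0 : 0 < L := by linarith
  have hαa : ‖α‖ ≤ a / 2 := hα.trans hCa
  have hβa : ‖β‖ ≤ a / 2 := hβ.trans hCa
  have hω0 : 0 < ‖α + β‖ := lt_of_lt_of_le (by positivity) hω
  have hωne : α + β ≠ 0 := norm_pos_iff.1 hω0
  have hω8 : ‖α + β‖ ≤ 1 / 8 := (norm_add_le _ _).trans (by linarith)
  have hωC : ‖α + β‖ ≤ 2 * (C₀ / L) := (norm_add_le _ _).trans (by linarith)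
  have hlM : Real.log M = lam * L := by rw [hM, Real.log_rpow hq0, hL]
  have hlM0 : 0 < Real.log M := by rw [hlM]; positivity
  have hM0 : 0 < M := by rw [hM]; positivity
  have hlM2 : Real.log 2 ≤ Real.log M := by
    rw [hlM]
    rw [div_le_iff₀ hlam0] at hLlam
    linarith
  have hM2 : 2 ≤ M := (Real.log_le_log_iff (by norm_num : (0 : ℝ) < 2) hM0).1 hlM2
  have hM1 : 1 ≤ M := by linarith
  have hMqq : M ≤ q := by
    rw [hM]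
    conv_rhs => rw [← Real.rpow_one (q : ℝ)]
    exact Real.rpow_le_rpow_of_exponent_le hq1 hlam1.le
  have hlML : Real.log M ≤ L := by
    rw [hL]
    exact Real.log_le_log hM0 hMqq
  have hκ : ∀ z : ℂ, ‖z‖ ≤ C₀ / L → ‖z‖ * Real.log M ≤ C₀ := by
    intro z hz
    calc ‖z‖ * Real.log M ≤ C₀ / L * L := mul_le_mul hz hlML hlM0.le (by positivity)
      _ = C₀ := div_mul_cancel₀ _ hL0.ne'
  have hA0 : 0 < A := by rw [hA]; positivity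
  have hw0 : 0 < w := by linarith
  have hwM : w ≤ M := by
    rw [hM]
    exact hwδ.trans (Real.rpow_le_rpow_of_exponent_le hq1 hδ2)
  obtain ⟨P2, hP2⟩ : ∃ P2 : ℝ, P2 = 2 ^ (R₁.card + R₂.card) := ⟨_, rfl⟩
  have hP20 : 0 < P2 := by rw [hP2]; positivity
  have f1 := form_bd hQ hC₀ hCQ hM2 hL0 hlam0 hlam1 hlM hR1 hR2 hd hne hP2 hlX hα hβ
  have f2 := form_bd hQ hC₀ hCQ hM2 hL0 hlam0 hlam1 hlM hR1 hR2 hd hne hP2 hlX
    (half_bd ((norm_sub_le α β).trans (by linarith)) : ‖(α - β) / 2‖ ≤ C₀ / L)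
    (half_bd ((norm_sub_le β α).trans (by linarith)) : ‖(β - α) / 2‖ ≤ C₀ / L)
  have f3 : ‖E (1 + (α + β))‖ ≤ |CE| := (hCE _ (by linarith)).trans (le_abs_self _)
  have f4 := Gq_pow hCG hBG hBS hG hg (n := n) hB (hαa.trans (by linarith))
    (hβa.trans (by linarith)) u
  have f5 := exp_bd hω8
  have f6 : ‖((A ^ 2 / w : ℝ) : ℂ) ^ (-((α + β) / 2))‖ ≤ X₁ := by
    rw [hX₁, hA]
    exact cpow_bd hcK hq2 hw1 (hwM.trans hMqq) hC₀ hL (by rw [norm_neg]; exact half_bd hωC)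
  have hB0 : 0 ≤ B := by rw [hB]; positivity
  have hu1 : 1 ≤ (1 + |u|) ^ B := Real.one_le_rpow (by linarith [abs_nonneg u]) hB0
  have k := hside q A M C₀ w α β u R₁ R₂ hq hA0 hM1 hw1 hαa hβa hωne (hκ α hα) (hκ β hβ) hd
  have m := main_bd (c := c) (L := L) hc hL0 hω hrho (pow_nonneg (sq_nonneg g) n) hX₁0.le hu1
    f3 f1 f4 f5 f6 f2
  rw [hn] at m
  obtain ⟨s1, s2⟩ := sizesR (ε₁ := ε₁) (n := n) hn' hcK hq1 hε hw0 hδ hwδ ha0.le han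
  rw [← hlam, ← hM, ← hA] at s1 s2
  have hWS : (1 + |u|) ^ BS ≤ (1 + |u|) ^ B := by
    refine Real.rpow_le_rpow_of_exponent_le (by linarith [abs_nonneg u]) ?_
    rw [hB]
    have : 0 ≤ BG * (2 * n : ℕ) := by positivity
    linarith
  have u1 : GS np (PM K M) M ≤ |CU| * (1 + L) := by
    refine (hGU _ hM1).trans ?_
    have h : CU * (1 + Real.log M) ≤ |CU| * (1 + Real.log M) :=
      mul_le_mul_of_nonneg_right (le_abs_self _) (by linarith)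
    exact h.trans (mul_le_mul_of_nonneg_left (by linarith) (abs_nonneg _))
  have x1 : (A ^ 2 / (M ^ 2 * w)) ^ (-(1 / 8) : ℝ) ≤
      cK ^ (-(1 / 4) : ℝ) * (q : ℝ) ^ (-e₂) := by
    refine s1.trans (mul_le_mul_of_nonneg_left ?_ (by positivity))
    exact Real.rpow_le_rpow_of_exponent_le hq1 (by linarith)
  have x2 : (A ^ 2 * M ^ 2) ^ a * (q : ℝ) ^ (-(1 - 2 * (a / 2) + 2 * a)) ≤
      cK ^ (2 * a) * (q : ℝ) ^ (-e₂) := by
    calc (A ^ 2 * M ^ 2) ^ a * (q : ℝ) ^ (-(1 - 2 * (a / 2) + 2 * a)) ≤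
        cK ^ (2 * a) * (q : ℝ) ^ (1 / 4 : ℝ) * (q : ℝ) ^ (-(1 - 2 * (a / 2) + 2 * a)) :=
        mul_le_mul_of_nonneg_right s2 (by positivity)
      _ = cK ^ (2 * a) * (q : ℝ) ^ (1 / 4 + -(1 - 2 * (a / 2) + 2 * a)) := by
        rw [mul_assoc, ← Real.rpow_add hq0]
      _ ≤ cK ^ (2 * a) * (q : ℝ) ^ (-e₂) := by
        refine mul_le_mul_of_nonneg_left ?_ (by positivity)
        exact Real.rpow_le_rpow_of_exponent_le hq1 (by linarith)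
  have r := err_bd (κ := 6 * C₀) (P2 := P2) (w := w) hq1 hL hL1 hc hcK he₂0 hω0 hω
    (GS_nonneg (K := K) M) u1 (by positivity) (by positivity) x1 x2 hWS (by positivity)
    (by positivity) hCS hP20 hw1
  rw [← hP2] at k ⊢
  have k' := k.trans r
  obtain ⟨Sm, hSm⟩ : ∃ Sm, Sm = ∑ S ∈ DM K M, ∑ T ∈ DM K M, Wr M α β R₁ R₂ S T *
          Sn (qi K q) (1 / 2 + α + u * I) (1 / 2 + β - u * I) (Yr A w R₁ R₂ S T) := ⟨_, rfl⟩
  rw [← hSm] at k' ⊢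
  obtain ⟨Mn, hMn⟩ : ∃ Mn, Mn = 1 / (α + β) * (E (1 + (α + β)) * QF K M α β (α + β) R₁ R₂ -
          (rho K : ℂ) * Gq (1 / 2 + α + u * I) (1 / 2 + β - u * I) (-((α + β) / 2)) ^
            nrComplexPlaces K * cexp ((α + β) ^ 2 / 2) *
            (((A ^ 2 / w : ℝ) : ℂ) ^ (-((α + β) / 2)) *
              QF K M ((α - β) / 2) ((β - α) / 2) ((α - β) / 2 + (β - α) / 2) R₁ R₂)) :=
    ⟨_, rfl⟩
  rw [← hMn] at k' m
  rw [← hn] at m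
  have e : Sm = (Sm - Mn) + Mn := by ring
  rw [e]
  refine (norm_add_le _ _).trans ((add_le_add k' m).trans (le_of_eq ?_))
  field_simp
  ring

theorem pf_DE (h1 : Pool.Agent.H31.CRG.T_QFB) (h2 : Pool.Agent.H65.CRZ.T_G1)
    (h3 : Pool.Agent.H65.CRG.T_SA) (h4 : Pool.Agent.H65.CRG.T_SC)
    (h5 : Pool.Agent.H65.CRG.T_CQ) : Pool.Agent.H31.CRG.T_DE := by
  intro K _ _ _ ε₁ c C₀ hε hε' hc hC₀
  obtain ⟨hn1, hfr, cK, hcK, hcB⟩ := h5 K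
  obtain ⟨n, hn⟩ : ∃ n, n = nrComplexPlaces K := ⟨_, rfl⟩
  rw [← hn] at hn1
  have hn' : (1 : ℝ) ≤ n := by exact_mod_cast hn1
  obtain ⟨a, ha⟩ : ∃ a : ℝ, a = 1 / (4 * (2 * (n : ℝ) + 2)) := ⟨_, rfl⟩
  have ha0 : 0 < a := by rw [ha]; positivity
  have han : a * (2 * (n : ℝ) + 2) = 1 / 4 := by
    rw [ha]
    field_simp
  have ha16 : a ≤ 1 / 16 := by
    have : a * 4 ≤ a * (2 * (n : ℝ) + 2) := mul_le_mul_of_nonneg_left (by linarith) ha0.le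
    linarith
  obtain ⟨E, hE⟩ := a_ZK K
  have hE' : IsE K E := hE
  obtain ⟨CS, BS, hCS, hBS, hside⟩ := sideR h3 h4 (a / 2) a (by linarith) (by linarith)
    (by linarith) E hE'
  obtain ⟨CG, BG, hCG, hBG, hG⟩ := h2 1
  obtain ⟨CU, -, hGU, -⟩ := a_GU K
  obtain ⟨CQ, hCQ, hQ⟩ := h1 K C₀ hC₀
  obtain ⟨CE, hCE⟩ := (isCompact_closedBall (1 : ℂ) 1).exists_bound_of_continuousOn
    hE'.1.continuous.continuousOn
  have hCE' : ∀ z : ℂ, ‖z‖ ≤ 1 → ‖E (1 + z)‖ ≤ CE := by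
    intro z hz
    refine hCE _ ?_
    rw [Metric.mem_closedBall, dist_eq_norm, add_sub_cancel_left]
    exact hz
  have hrho : 0 ≤ rho K := (dedekindZeta_residue_pos K).le
  obtain ⟨lam, hlam⟩ : ∃ l : ℝ, l = 1 - 2 * ε₁ := ⟨_, rfl⟩
  have hlam0 : 0 < lam := by rw [hlam]; linarith
  obtain ⟨X₁, hX₁⟩ : ∃ X₁, X₁ = Real.exp (C₀ * (2 * |Real.log cK| / Real.log 2 + 2 * n + 1)) :=
    ⟨_, rfl⟩
  have hX₁0 : 0 < X₁ := by rw [hX₁]; positivity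
  obtain ⟨e₂, he₂⟩ : ∃ e₂, e₂ = min (ε₁ / 4) (1 / 2) := ⟨_, rfl⟩
  have he₂0 : 0 < e₂ := by rw [he₂]; exact lt_min (by linarith) (by norm_num)
  obtain ⟨δ, hδ⟩ : ∃ δ, δ = min (2 * ε₁) lam := ⟨_, rfl⟩
  have hδ0 : 0 < δ := by rw [hδ]; exact lt_min (by linarith) hlam0
  have hδ1 : δ ≤ 2 * ε₁ := by rw [hδ]; exact min_le_left _ _
  have hδ2 : δ ≤ lam := by rw [hδ]; exact min_le_right _ _
  obtain ⟨g, hg⟩ : ∃ g, g = CG * 3 ^ BG * Real.exp 1 := ⟨_, rfl⟩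
  have hg0 : 0 < g := by rw [hg]; positivity
  obtain ⟨B, hB⟩ : ∃ B, B = BG * (2 * n : ℕ) + BS := ⟨_, rfl⟩
  have hB0 : 0 ≤ B := by rw [hB]; positivity
  obtain ⟨Z, hZ⟩ : ∃ Z, Z = 1 / c * (|CE| + rho K * (g ^ 2) ^ n * Real.exp 1 * X₁) *
      (CQ / lam ^ 2) + CS * Real.exp (6 * C₀) * |CU| ^ 3 *
          (cK ^ (-(1 / 4) : ℝ) / c + cK ^ (2 * a)) * (1 + 5 / e₂) ^ 5 := ⟨_, rfl⟩
  have hZ0 : 0 ≤ Z := by rw [hZ]; positivity
  obtain ⟨q₀, hq₀⟩ : ∃ q₀ : ℕ, ∀ q : ℕ, q₀ ≤ q → max (max 1 (C₀ / (a / 2))) (Real.log 2 / lam) ≤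
      Real.log q := by
    have h : Tendsto (fun q : ℕ => Real.log q) atTop atTop :=
      Real.tendsto_log_atTop.comp tendsto_natCast_atTop_atTop
    obtain ⟨q₂, hq₂⟩ := eventually_atTop.1 (h.eventually (eventually_ge_atTop
      (max (max 1 (C₀ / (a / 2))) (Real.log 2 / lam))))
    exact ⟨q₂, hq₂⟩
  refine ⟨δ, Real.exp C₀ * Real.exp C₀ * Z + 1, B, q₀, hδ0, by positivity, hB0, ?_⟩
  intro q hq hqq α β u hα hβ hω A₁ A₂ hA1 hA2 hA1' hA2' hAA hsm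
  have hqa := hq₀ q hqq
  have hq2 : (2 : ℝ) ≤ q := by exact_mod_cast hq.two_le
  have hq0 : (0 : ℝ) < q := by linarith
  have hq1 : (1 : ℝ) ≤ q := by linarith
  obtain ⟨L, hL⟩ : ∃ L, L = Real.log q := ⟨_, rfl⟩
  rw [← hL] at hα hβ hω hqa ⊢
  have hL1 : 1 ≤ L := (le_max_left _ _).trans ((le_max_left _ _).trans hqa)
  have hL0 : 0 < L := by linarith
  have hLC : C₀ / (a / 2) ≤ L := (le_max_right _ _).trans ((le_max_left _ _).trans hqa)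
  have hLlam : Real.log 2 / lam ≤ L := (le_max_right _ _).trans hqa
  have hCa : C₀ / L ≤ a / 2 := by
    rw [div_le_iff₀ hL0]
    rw [div_le_iff₀ (by linarith)] at hLC
    linarith
  obtain ⟨M, hM⟩ : ∃ M, M = (q : ℝ) ^ lam := ⟨_, rfl⟩
  have hMq : Mq ε₁ q = M := by rw [hM, hlam]; rfl
  have hM0 : 0 < M := by rw [hM]; positivity
  have hlM : Real.log M = lam * L := by rw [hM, Real.log_rpow hq0, hL]
  have hM1 : 1 ≤ M := by rw [hM]; exact Real.one_le_rpow hq1 hlam0.le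
  have hMqq : M ≤ q := by
    rw [hM]
    conv_rhs => rw [← Real.rpow_one (q : ℝ)]
    exact Real.rpow_le_rpow_of_exponent_le hq1 (by linarith)
  obtain ⟨hA, -⟩ := hcB q hq
  rw [← hn] at hA
  obtain ⟨A, hAd⟩ : ∃ A, A = cB K (qi K q) := ⟨_, rfl⟩
  rw [← hAd] at hA ⊢
  -- the relation
  have hX1 := Pool.Agent.H96.CV.one_le_nm hA1
  have hY1 := Pool.Agent.H96.CV.one_le_nm hA2
  obtain ⟨w, hw⟩ : ∃ w, w = nm A₁ * nm A₂ := ⟨_, rfl⟩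
  have hw1 : 1 ≤ w := by rw [hw]; exact one_le_mul_of_one_le_of_one_le hX1 hY1
  have hw0 : 0 < w := by linarith
  have hwM : w ≤ M := by
    rw [hM, hw]
    exact hsm.trans (Real.rpow_le_rpow_of_exponent_le hq1 hδ2)
  have hXw : nm A₁ ≤ w := by rw [hw]; exact le_mul_of_one_le_right (by linarith) hY1
  have hYw : nm A₂ ≤ w := by rw [hw]; exact le_mul_of_one_le_left (by linarith) hX1
  have hR1 : pf A₁ ⊆ PM K M := pf_sub hA1 (hXw.trans hwM)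
  have hR2 : pf A₂ ⊆ PM K M := pf_sub hA2 (hYw.trans hwM)
  have hdis : Disjoint (pf A₁) (pf A₂) := by
    classical
    exact ((a_GC K ∅ ∅).2 A₁ A₂ hA1 hA2 hAA).1
  have hne1 := Pool.Agent.H96.CV.pf_nonempty hA1 hA1'
  have hlX : Real.log (nS np (pf A₁)) ≤ Real.log w :=
    Real.log_le_log (by linarith [one_le_nS (pf A₁)])
      ((Pool.Agent.H81.CV.nS_pf hA1).trans hXw)
  rw [← hw] at hsm
  have k := core hn hn1 hside hCS hBS hCG hBG hG hGU hQ hCQ hCE' hc hC₀ hcK hε hlam hlam0 hg he₂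
    ha0 han ha16 hB hX₁ hq hL hL1 hCa hLlam hA hM u hα hβ hω hδ1 hδ2 hw1 hsm hR1 hR2 hdis hne1
    hlX
  rw [← hZ] at k
  rw [hMq, Dn_eq (qi K q) (A := A) hM1 α β u A₁ A₂ hdis, norm_mul, norm_mul]
  rw [← hw]
  have t1 : ‖((nm A₁ : ℝ) : ℂ) ^ (-(1 / 2 + α + u * I))‖ ≤
      nm A₁ ^ (-(1 / 2) : ℝ) * Real.exp C₀ :=
    cpow_nm hX1 (hXw.trans (hwM.trans hMqq)) hC₀ hL hL0 hα (re1 α u)
  have t2 : ‖((nm A₂ : ℝ) : ℂ) ^ (-(1 / 2 + β - u * I))‖ ≤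
      nm A₂ ^ (-(1 / 2) : ℝ) * Real.exp C₀ :=
    cpow_nm hY1 (hYw.trans (hwM.trans hMqq)) hC₀ hL hL0 hβ (re2 β u)
  have hX0 : 0 < nm A₁ := by linarith
  have hY0 : 0 < nm A₂ := by linarith
  have hlw : 0 ≤ Real.log w := Real.log_nonneg hw1
  calc ‖((nm A₁ : ℝ) : ℂ) ^ (-(1 / 2 + α + u * I))‖ *
        ‖((nm A₂ : ℝ) : ℂ) ^ (-(1 / 2 + β - u * I))‖ * _ ≤
      (nm A₁ ^ (-(1 / 2) : ℝ) * Real.exp C₀) * (nm A₂ ^ (-(1 / 2) : ℝ) * Real.exp C₀) *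
        (Z / L * (1 + |u|) ^ B *
          (2 ^ ((pf A₁).card + (pf A₂).card) * (1 + Real.log w))) := by
        refine mul_le_mul (mul_le_mul t1 t2 (norm_nonneg _) (by positivity)) k (norm_nonneg _)
          (by positivity)
    _ = (Real.exp C₀ * Real.exp C₀ * Z) / L * (1 + |u|) ^ B * w ^ (-(1 / 2) : ℝ) *
        2 ^ ((pf A₁).card + (pf A₂).card) * (1 + Real.log w) := by
        rw [hw, Real.mul_rpow hX0.le hY0.le]
        ring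
    _ ≤ _ := by
        have hu : 0 < (1 + |u|) ^ B := by positivity
        have hh : (Real.exp C₀ * Real.exp C₀ * Z) / L ≤ (Real.exp C₀ * Real.exp C₀ * Z + 1) / L :=
          div_le_div_of_nonneg_right (by linarith) hL0.le
        refine mul_le_mul_of_nonneg_right ?_ (by linarith)
        refine mul_le_mul_of_nonneg_right ?_ (by positivity)
        refine mul_le_mul_of_nonneg_right ?_ (by positivity)
        exact mul_le_mul_of_nonneg_right hh hu.le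

end Pool.Agent.H31.CRG
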