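import Pool.Agent.H31.CRG.DEa

/-!
# The terms with a small relation (row DE of the board `crg_modules`), part 2
-/

set_option autoImplicit false

open NumberField NumberField.InfinitePlace Complex Filter Topology MeasureTheory

namespace Pool.Agent.H31.CRG

open Pool.Agent.H28.RC Pool.Agent.H25.HK Pool.Agent.H37.CV Pool.Agent.H65.CRZ Pool.Agent.H65.CRG
open Pool.Agent.H94.CV.F1 (nm_top pf_top one_le_nS mem_DM xw_le)
open Pool.Agent.H21.CRZ (cpw term_eq cpow_le cpow_le' nS_pos' re1 im1 re2 im2 U_le)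

/-- the quotient of the Gamma factors at the polar term -/
theorem Gq_norm {CG BG : ℝ} (hCG : 0 < CG) (hBG : 0 ≤ BG)
    (hG : ∀ s w : ℂ, 1 / 4 ≤ s.re → s.re ≤ 3 / 4 → -(1 / 8) ≤ w.re → w.re ≤ 1 →
      ‖Gamma (s + w)‖ ≤ CG * (1 + |s.im|) ^ BG * Real.exp (2 * |w.im|) * ‖Gamma s‖)
    {α β : ℂ} (hα : ‖α‖ ≤ 1 / 16) (hβ : ‖β‖ ≤ 1 / 16) (u : ℝ) :
    ‖Gq (1 / 2 + α + u * I) (1 / 2 + β - u * I) (-((α + β) / 2))‖ ≤
      (CG * 3 ^ BG * Real.exp 1 * (1 + |u|) ^ BG) ^ 2 := by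
  obtain ⟨s₁, hs₁⟩ : ∃ s₁, s₁ = 1 / 2 + α + u * I := ⟨_, rfl⟩
  obtain ⟨s₂, hs₂⟩ : ∃ s₂, s₂ = 1 / 2 + β - u * I := ⟨_, rfl⟩
  obtain ⟨w, hw⟩ : ∃ w, w = -((α + β) / 2) := ⟨_, rfl⟩
  have hU : 1 + |s₁.im| + |s₂.im| ≤ 3 * (1 + |u|) := by
    rw [hs₁, hs₂]
    exact U_le hα hβ u
  have hre1 : s₁.re = 1 / 2 + α.re := by rw [hs₁, re1]
  have hre2 : s₂.re = 1 / 2 + β.re := by rw [hs₂, re2]
  have ha := abs_le.1 ((Complex.abs_re_le_norm α).trans hα)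
  have hb := abs_le.1 ((Complex.abs_re_le_norm β).trans hβ)
  have hwn : ‖w‖ ≤ 1 / 16 := by
    rw [hw, norm_neg, norm_div]
    have h := norm_add_le α β
    have h2 : ‖(2 : ℂ)‖ = 2 := by norm_num
    rw [h2]
    linarith
  have hwre := abs_le.1 ((Complex.abs_re_le_norm w).trans hwn)
  have hwim := (Complex.abs_im_le_norm w).trans hwn
  have hexp : Real.exp (2 * |w.im|) ≤ Real.exp 1 := Real.exp_le_exp.2 (by linarith)
  have key : ∀ s : ℂ, 1 / 4 ≤ s.re → s.re ≤ 3 / 4 → 1 + |s.im| ≤ 3 * (1 + |u|) →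
      ‖Gamma (s + w)‖ ≤ CG * 3 ^ BG * Real.exp 1 * (1 + |u|) ^ BG * ‖Gamma s‖ := by
    intro s h1 h2 h3
    have h := hG s w h1 h2 (by linarith [hwre.1]) (by linarith [hwre.2])
    refine h.trans (mul_le_mul_of_nonneg_right ?_ (norm_nonneg _))
    have h4 : (1 + |s.im|) ^ BG ≤ 3 ^ BG * (1 + |u|) ^ BG := by
      calc (1 + |s.im|) ^ BG ≤ (3 * (1 + |u|)) ^ BG := Real.rpow_le_rpow (by positivity) h3 hBG
        _ = _ := Real.mul_rpow (by norm_num) (by positivity)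
    calc CG * (1 + |s.im|) ^ BG * Real.exp (2 * |w.im|) ≤
        CG * (3 ^ BG * (1 + |u|) ^ BG) * Real.exp 1 := by gcongr
      _ = _ := by ring
  have k1 := key s₁ (by linarith [ha.1]) (by linarith [ha.2]) (by linarith [abs_nonneg s₂.im])
  have k2 := key s₂ (by linarith [hb.1]) (by linarith [hb.2]) (by linarith [abs_nonneg s₁.im])
  have g1 : Gamma s₁ ≠ 0 := Complex.Gamma_ne_zero_of_re_pos (by linarith [ha.1])
  have g2 : Gamma s₂ ≠ 0 := Complex.Gamma_ne_zero_of_re_pos (by linarith [hb.1])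
  have n1 : 0 < ‖Gamma s₁‖ := norm_pos_iff.2 g1
  have n2 : 0 < ‖Gamma s₂‖ := norm_pos_iff.2 g2
  rw [← hs₁, ← hs₂, ← hw]
  unfold Gq
  rw [norm_div, norm_mul, norm_mul, div_le_iff₀ (mul_pos n1 n2)]
  calc ‖Gamma (s₁ + w)‖ * ‖Gamma (s₂ + w)‖ ≤
      (CG * 3 ^ BG * Real.exp 1 * (1 + |u|) ^ BG * ‖Gamma s₁‖) *
        (CG * 3 ^ BG * Real.exp 1 * (1 + |u|) ^ BG * ‖Gamma s₂‖) :=
        mul_le_mul k1 k2 (norm_nonneg _) (by positivity)
    _ = _ := by ring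

theorem pf_sub {K : Type} [Field K] [NumberField K] {X : Ideal (𝓞 K)} (hX : X ≠ ⊥) {M : ℝ}
    (h : nm X ≤ M) : pf X ⊆ PM K M := by
  intro P hP
  refine Pool.Agent.H96.CV.mem_PM.2 ?_
  have h1 : X ≤ P.1 := (Pool.Agent.H81.CV.mem_pf hX _).1 hP
  have h2 : np P ≤ nm X := by
    unfold np nm
    have h3 : Ideal.absNorm P.1 ∣ Ideal.absNorm X := Ideal.absNorm_dvd_absNorm_of_le h1
    have h4 : Ideal.absNorm X ≠ 0 := fun h => hX (Ideal.absNorm_eq_zero_iff.1 h)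
    exact_mod_cast Nat.le_of_dvd (Nat.pos_of_ne_zero h4) h3
  linarith

/-- powers of logarithms -/
theorem log_pow_small {e : ℝ} (he : 0 < e) {x : ℝ} (hx : 1 ≤ x) (hL : 1 ≤ Real.log x) :
    (1 + Real.log x) ^ 4 * x ^ (-e) ≤ (1 + 5 / e) ^ 5 / Real.log x := by
  have hx0 : 0 < x := by linarith
  have he5 : 0 < e / 5 := by positivity
  have h1 := Real.log_le_rpow_div hx0.le he5
  have h2 : 1 ≤ x ^ (e / 5) := Real.one_le_rpow hx he5.le
  have h3 : x ^ (e / 5) / (e / 5) = 5 / e * x ^ (e / 5) := by field_simp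
  rw [h3] at h1
  have h4 : 1 + Real.log x ≤ (1 + 5 / e) * x ^ (e / 5) := by linarith
  have h5 : (1 + Real.log x) ^ 5 ≤ (1 + 5 / e) ^ 5 * x ^ e := by
    refine (pow_le_pow_left₀ (by linarith) h4 5).trans (le_of_eq ?_)
    rw [mul_pow, ← Real.rpow_natCast (x ^ (e / 5)), ← Real.rpow_mul hx0.le]
    congr 2
    push_cast
    ring
  rw [le_div_iff₀ (by linarith)]
  have h6 : x ^ e * x ^ (-e) = 1 := by
    rw [← Real.rpow_add hx0, add_neg_cancel, Real.rpow_zero]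
  have h7 : 0 < x ^ (-e) := by positivity
  calc (1 + Real.log x) ^ 4 * x ^ (-e) * Real.log x ≤
      (1 + Real.log x) ^ 4 * x ^ (-e) * (1 + Real.log x) := by
        refine mul_le_mul_of_nonneg_left (by linarith) (by positivity)
    _ = (1 + Real.log x) ^ 5 * x ^ (-e) := by ring
    _ ≤ (1 + 5 / e) ^ 5 * x ^ e * x ^ (-e) := mul_le_mul_of_nonneg_right h5 h7.le
    _ = (1 + 5 / e) ^ 5 := by rw [mul_assoc, h6, mul_one]

/-- the sizes of the parameters -/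
theorem sizesR {cK x ε₁ w δ a : ℝ} {n : ℕ} (hn : 1 ≤ n) (hcK : 0 < cK) (hx : 1 ≤ x)
    (hε : 0 < ε₁) (hw : 0 < w) (hδ : δ ≤ 2 * ε₁) (hwx : w ≤ x ^ δ) (ha : 0 ≤ a)
    (han : a * (2 * (n : ℝ) + 2) = 1 / 4) :
    ((cK * x ^ n) ^ 2 / ((x ^ (1 - 2 * ε₁)) ^ 2 * w)) ^ (-(1 / 8) : ℝ) ≤
      cK ^ (-(1 / 4) : ℝ) * x ^ (-(ε₁ / 4)) ∧
    ((cK * x ^ n) ^ 2 * (x ^ (1 - 2 * ε₁)) ^ 2) ^ a ≤ cK ^ (2 * a) * x ^ (1 / 4 : ℝ) := by
  have hx0 : 0 < x := by linarith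
  have hn' : (1 : ℝ) ≤ n := by exact_mod_cast hn
  have e0 : (x ^ (1 - 2 * ε₁)) ^ 2 = x ^ (2 - 4 * ε₁) := by
    rw [← Real.rpow_natCast (x ^ (1 - 2 * ε₁)), ← Real.rpow_mul hx0.le]
    congr 1
    push_cast
    ring
  have e1 : (cK * x ^ n) ^ 2 = cK ^ 2 * x ^ (2 * (n : ℝ)) := by
    rw [mul_pow, ← pow_mul, ← Real.rpow_natCast x (n * 2)]
    congr 2
    push_cast
    ring
  rw [e0, e1]
  constructor
  · have h1 : cK ^ 2 * x ^ (2 * ε₁) ≤ cK ^ 2 * x ^ (2 * (n : ℝ)) / (x ^ (2 - 4 * ε₁) * w) := by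
      rw [le_div_iff₀ (by positivity)]
      calc cK ^ 2 * x ^ (2 * ε₁) * (x ^ (2 - 4 * ε₁) * w) ≤
          cK ^ 2 * x ^ (2 * ε₁) * (x ^ (2 - 4 * ε₁) * x ^ δ) := by gcongr
        _ = cK ^ 2 * x ^ (2 * ε₁ + (2 - 4 * ε₁ + δ)) := by
            rw [Real.rpow_add hx0, Real.rpow_add hx0]
            ring
        _ ≤ cK ^ 2 * x ^ (2 * (n : ℝ)) := by
            refine mul_le_mul_of_nonneg_left ?_ (by positivity)
            exact Real.rpow_le_rpow_of_exponent_le hx (by linarith)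
    refine (Real.rpow_le_rpow_of_nonpos (by positivity) h1 (by norm_num)).trans (le_of_eq ?_)
    rw [Real.mul_rpow (by positivity) (by positivity), ← Real.rpow_natCast cK,
      ← Real.rpow_mul hcK.le, ← Real.rpow_mul hx0.le]
    congr 2
    · push_cast
      ring
    · ring
  · have h1 : cK ^ 2 * x ^ (2 * (n : ℝ)) * x ^ (2 - 4 * ε₁) ≤ cK ^ 2 * x ^ (2 * (n : ℝ) + 2) := by
      rw [mul_assoc, ← Real.rpow_add hx0]
      refine mul_le_mul_of_nonneg_left ?_ (by positivity)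
      exact Real.rpow_le_rpow_of_exponent_le hx (by linarith)
    refine (Real.rpow_le_rpow (by positivity) h1 ha).trans (le_of_eq ?_)
    rw [Real.mul_rpow (by positivity) (by positivity), ← Real.rpow_natCast cK,
      ← Real.rpow_mul hcK.le, ← Real.rpow_mul hx0.le]
    congr 2
    rw [← han]
    ring


theorem norm_two : ‖(2 : ℂ)‖ = 2 := by norm_num

/-- the logarithm of the conductor -/
theorem log_bd {cK x w : ℝ} {n : ℕ} (hcK : 0 < cK) (hx : 1 ≤ x) (hw : 1 ≤ w) (hwx : w ≤ x) :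
    |Real.log ((cK * x ^ n) ^ 2 / w)| ≤ 2 * |Real.log cK| + (2 * n + 1) * Real.log x := by
  have hx0 : 0 < x := by linarith
  have hw0 : 0 < w := by linarith
  have hL : 0 ≤ Real.log x := Real.log_nonneg hx
  have hlw : Real.log w ≤ Real.log x := Real.log_le_log hw0 hwx
  have hlw0 : 0 ≤ Real.log w := Real.log_nonneg hw
  rw [Real.log_div (by positivity) hw0.ne', Real.log_pow, Real.log_mul hcK.ne' (by positivity),
    Real.log_pow]
  have k3 := abs_le.1 (le_refl |Real.log cK|)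
  obtain ⟨y, hy⟩ : ∃ y : ℝ, y = (n : ℝ) * Real.log x := ⟨_, rfl⟩
  have hy0 : 0 ≤ y := by rw [hy]; positivity
  have e : (2 * (n : ℝ) + 1) * Real.log x = 2 * y + Real.log x := by rw [hy]; ring
  rw [e, ← hy, abs_le]
  push_cast
  constructor
  · linarith [k3.1, k3.2, abs_nonneg (Real.log cK)]
  · linarith [k3.1, k3.2, abs_nonneg (Real.log cK)]

/-- the power of the conductor -/
theorem cpow_bd {cK x w C₀ L : ℝ} {n : ℕ} (hcK : 0 < cK) (hx : 2 ≤ x) (hw : 1 ≤ w)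
    (hwx : w ≤ x) (hC₀ : 0 < C₀) (hL : L = Real.log x) {z : ℂ} (hz : ‖z‖ ≤ C₀ / L) :
    ‖(((cK * x ^ n) ^ 2 / w : ℝ) : ℂ) ^ z‖ ≤
      Real.exp (C₀ * (2 * |Real.log cK| / Real.log 2 + 2 * n + 1)) := by
  have hx0 : 0 < x := by linarith
  have hw0 : 0 < w := by linarith
  have hlog2 : 0 < Real.log 2 := Real.log_pos (by norm_num)
  have hL2 : Real.log 2 ≤ L := by
    rw [hL]
    exact Real.log_le_log (by norm_num) hx
  have hL0 : 0 < L := by linarith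
  have hAw : 0 < (cK * x ^ n) ^ 2 / w := by positivity
  rw [Complex.norm_cpow_eq_rpow_re_of_pos hAw, Real.rpow_def_of_pos hAw]
  apply Real.exp_le_exp.2
  have k1 : |z.re| ≤ C₀ / L := (Complex.abs_re_le_norm _).trans hz
  have k2 := log_bd (n := n) hcK (by linarith : (1 : ℝ) ≤ x) hw hwx
  rw [← hL] at k2
  obtain ⟨l, hl⟩ : ∃ l, l = Real.log ((cK * x ^ n) ^ 2 / w) := ⟨_, rfl⟩
  rw [← hl] at k2 ⊢
  calc l * z.re ≤ |l * z.re| := le_abs_self _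
    _ = |l| * |z.re| := abs_mul _ _
    _ ≤ (2 * |Real.log cK| + (2 * n + 1) * L) * (C₀ / L) :=
        mul_le_mul k2 k1 (abs_nonneg _) (by positivity)
    _ = C₀ * (2 * |Real.log cK| / L + 2 * n + 1) := by
      field_simp
      ring
    _ ≤ C₀ * (2 * |Real.log cK| / Real.log 2 + 2 * n + 1) := by
      have h : 2 * |Real.log cK| / L ≤ 2 * |Real.log cK| / Real.log 2 :=
        div_le_div_of_nonneg_left (by positivity) hlog2 hL2
      refine mul_le_mul_of_nonneg_left ?_ hC₀.le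
      linarith

/-- the power of the norm of an ideal -/
theorem cpow_nm {x y C₀ L : ℝ} (hx : 1 ≤ x) (hxy : x ≤ y) (hC₀ : 0 < C₀) (hL : L = Real.log y)
    (hL0 : 0 < L) {z v : ℂ} (hz : ‖z‖ ≤ C₀ / L) (hv : v.re = 1 / 2 + z.re) :
    ‖(x : ℂ) ^ (-v)‖ ≤ x ^ (-(1 / 2) : ℝ) * Real.exp C₀ := by
  have hx0 : 0 < x := by linarith
  rw [Complex.norm_cpow_eq_rpow_re_of_pos hx0, Complex.neg_re, hv]
  have e : -(1 / 2 + z.re) = -(1 / 2) + -z.re := by ring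
  rw [e, Real.rpow_add hx0]
  refine mul_le_mul_of_nonneg_left ?_ (by positivity)
  rw [Real.rpow_def_of_pos hx0]
  apply Real.exp_le_exp.2
  have p1 : |z.re| ≤ C₀ / L := (Complex.abs_re_le_norm z).trans hz
  have p2 : Real.log x ≤ L := by
    rw [hL]
    exact Real.log_le_log hx0 hxy
  have p3 : 0 ≤ Real.log x := Real.log_nonneg hx
  calc Real.log x * -z.re ≤ Real.log x * |z.re| :=
        mul_le_mul_of_nonneg_left (neg_le_abs _) p3
    _ ≤ L * (C₀ / L) := mul_le_mul p2 p1 (abs_nonneg _) hL0.le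
    _ = C₀ := by field_simp

/-- the bound of the two main terms -/
theorem main_bd {ω Ev Q₁ Gv ev Pv Q₂ : ℂ} {c L CE r GG X W Y : ℝ} (hc : 0 < c) (hL : 0 < L)
    (hω : c / L ≤ ‖ω‖) (hr : 0 ≤ r) (hGG : 0 ≤ GG) (hX : 0 ≤ X) (hW : 1 ≤ W)
    (h1 : ‖Ev‖ ≤ CE) (h2 : ‖Q₁‖ ≤ Y) (h3 : ‖Gv‖ ≤ GG * W) (h4 : ‖ev‖ ≤ Real.exp 1)
    (h5 : ‖Pv‖ ≤ X) (h6 : ‖Q₂‖ ≤ Y) :
    ‖1 / ω * (Ev * Q₁ - (r : ℂ) * Gv * ev * (Pv * Q₂))‖ ≤
      L / c * ((CE + r * GG * Real.exp 1 * X) * W * Y) := by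
  have hω0 : 0 < ‖ω‖ := lt_of_lt_of_le (by positivity) hω
  have hY0 : 0 ≤ Y := (norm_nonneg _).trans h2
  have hCE : 0 ≤ CE := (norm_nonneg _).trans h1
  rw [norm_mul, norm_div, norm_one]
  have t1 : ‖Ev * Q₁‖ ≤ CE * W * Y := by
    rw [norm_mul]
    calc _ ≤ CE * Y := mul_le_mul h1 h2 (norm_nonneg _) hCE
      _ ≤ CE * W * Y := by
        refine mul_le_mul_of_nonneg_right ?_ hY0
        exact le_mul_of_one_le_right hCE hW
  have t2 : ‖(r : ℂ) * Gv * ev * (Pv * Q₂)‖ ≤ r * GG * Real.exp 1 * X * W * Y := by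
    rw [norm_mul, norm_mul, norm_mul, norm_mul, Complex.norm_real, Real.norm_of_nonneg hr]
    calc _ ≤ r * (GG * W) * Real.exp 1 * (X * Y) := by
          refine mul_le_mul (mul_le_mul (mul_le_mul_of_nonneg_left h3 hr) h4 (norm_nonneg _)
            (by positivity)) (mul_le_mul h5 h6 (norm_nonneg _) hX) (by positivity)
            (by positivity)
      _ = _ := by ring
  have t3 : 1 / ‖ω‖ ≤ L / c := by
    rw [div_le_div_iff₀ hω0 hc]
    rw [div_le_iff₀ hL] at hω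
    linarith
  calc 1 / ‖ω‖ * _ ≤ L / c * (CE * W * Y + r * GG * Real.exp 1 * X * W * Y) :=
        mul_le_mul t3 ((norm_sub_le _ _).trans (add_le_add t1 t2)) (norm_nonneg _)
          (by positivity)
    _ = _ := by ring

/-- the bound of the error -/
theorem err_bd {q L c cK a e₂ w G CU x₁ x₂ W W₁ CS κ P2 ω : ℝ} (hq : 1 ≤ q)
    (hL : L = Real.log q) (hL1 : 1 ≤ L) (hc : 0 < c) (hcK : 0 < cK) (he : 0 < e₂) (hω0 : 0 < ω)
    (hω : c / L ≤ ω) (hG : 0 ≤ G) (hGU : G ≤ |CU| * (1 + L)) (h₁ : 0 ≤ x₁) (h₂ : 0 ≤ x₂)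
    (hx₁ : x₁ ≤ cK ^ (-(1 / 4) : ℝ) * q ^ (-e₂)) (hx₂ : x₂ ≤ cK ^ (2 * a) * q ^ (-e₂))
    (hW₁ : W₁ ≤ W) (hW : 0 < W) (hW₁0 : 0 < W₁) (hCS : 0 < CS) (hP : 0 < P2) (hw : 1 ≤ w) :
    CS * W₁ * Real.exp κ * (P2 * G ^ 3) * (x₁ / ω + x₂) ≤
      CS * Real.exp κ * |CU| ^ 3 * (cK ^ (-(1 / 4) : ℝ) / c + cK ^ (2 * a)) *
        (1 + 5 / e₂) ^ 5 / L * W * (P2 * (1 + Real.log w)) := by
  have hL0 : 0 < L := by linarith
  have hq0 : 0 < q := by linarith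
  have hlw0 : 0 ≤ Real.log w := Real.log_nonneg hw
  have u2 : x₁ / ω ≤ cK ^ (-(1 / 4) : ℝ) / c * ((1 + L) * q ^ (-e₂)) := by
    rw [div_le_iff₀ hω0]
    have t2 : 1 ≤ (1 + L) / c * ω := by
      calc (1 : ℝ) = L / c * (c / L) := by field_simp
        _ ≤ (1 + L) / c * ω := by
          refine mul_le_mul ?_ hω (by positivity) (by positivity)
          exact div_le_div_of_nonneg_right (by linarith) hc.le
    calc x₁ ≤ cK ^ (-(1 / 4) : ℝ) * q ^ (-e₂) := hx₁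
      _ = cK ^ (-(1 / 4) : ℝ) * q ^ (-e₂) * 1 := (mul_one _).symm
      _ ≤ cK ^ (-(1 / 4) : ℝ) * q ^ (-e₂) * ((1 + L) / c * ω) :=
        mul_le_mul_of_nonneg_left t2 (by positivity)
      _ = _ := by ring
  have u3 : x₂ ≤ cK ^ (2 * a) * ((1 + L) * q ^ (-e₂)) := by
    refine hx₂.trans (mul_le_mul_of_nonneg_left ?_ (by positivity))
    exact le_mul_of_one_le_left (by positivity) (by linarith)
  have u4 := log_pow_small he hq (by rw [← hL]; exact hL1)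
  rw [← hL] at u4
  have u5 : G ^ 3 ≤ (|CU| * (1 + L)) ^ 3 := pow_le_pow_left₀ hG hGU 3
  have u6 : CS * W₁ * Real.exp κ ≤ CS * W * Real.exp κ :=
    mul_le_mul_of_nonneg_right (mul_le_mul_of_nonneg_left hW₁ hCS.le) (Real.exp_nonneg _)
  have hZ : 0 ≤ CS * Real.exp κ * |CU| ^ 3 * (cK ^ (-(1 / 4) : ℝ) / c + cK ^ (2 * a)) := by
    positivity
  calc CS * W₁ * Real.exp κ * (P2 * G ^ 3) * (x₁ / ω + x₂) ≤
      CS * W * Real.exp κ * (P2 * (|CU| * (1 + L)) ^ 3) *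
        (cK ^ (-(1 / 4) : ℝ) / c * ((1 + L) * q ^ (-e₂)) +
          cK ^ (2 * a) * ((1 + L) * q ^ (-e₂))) := by
        refine mul_le_mul (mul_le_mul u6 (mul_le_mul_of_nonneg_left u5 hP.le) (by positivity)
          (by positivity)) (add_le_add u2 u3) (by positivity) (by positivity)
    _ = CS * Real.exp κ * |CU| ^ 3 * (cK ^ (-(1 / 4) : ℝ) / c + cK ^ (2 * a)) *
        ((1 + L) ^ 4 * q ^ (-e₂)) * (W * P2) := by ring
    _ ≤ CS * Real.exp κ * |CU| ^ 3 * (cK ^ (-(1 / 4) : ℝ) / c + cK ^ (2 * a)) *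
        ((1 + 5 / e₂) ^ 5 / L) * (W * P2) :=
        mul_le_mul_of_nonneg_right (mul_le_mul_of_nonneg_left u4 hZ) (by positivity)
    _ = CS * Real.exp κ * |CU| ^ 3 * (cK ^ (-(1 / 4) : ℝ) / c + cK ^ (2 * a)) *
        (1 + 5 / e₂) ^ 5 / L * W * (P2 * 1) := by ring
    _ ≤ _ := by
        refine mul_le_mul_of_nonneg_left ?_ (by positivity)
        exact mul_le_mul_of_nonneg_left (by linarith) hP.le

/-- the power of the quotient of the Gamma factors -/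
theorem Gq_pow {CG BG g B BS : ℝ} (hCG : 0 < CG) (hBG : 0 ≤ BG) (hBS : 0 ≤ BS)
    (hG : ∀ s w : ℂ, 1 / 4 ≤ s.re → s.re ≤ 3 / 4 → -(1 / 8) ≤ w.re → w.re ≤ 1 →
      ‖Gamma (s + w)‖ ≤ CG * (1 + |s.im|) ^ BG * Real.exp (2 * |w.im|) * ‖Gamma s‖)
    (hg : g = CG * 3 ^ BG * Real.exp 1) {n : ℕ} (hB : B = BG * (2 * n : ℕ) + BS)
    {α β : ℂ} (hα : ‖α‖ ≤ 1 / 16) (hβ : ‖β‖ ≤ 1 / 16) (u : ℝ) :
    ‖Gq (1 / 2 + α + u * I) (1 / 2 + β - u * I) (-((α + β) / 2)) ^ n‖ ≤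
      (g ^ 2) ^ n * (1 + |u|) ^ B := by
  rw [norm_pow]
  have k := Gq_norm hCG hBG hG hα hβ u
  rw [← hg] at k
  have hu0 : 0 < 1 + |u| := by positivity
  calc _ ≤ ((g * (1 + |u|) ^ BG) ^ 2) ^ n := pow_le_pow_left₀ (norm_nonneg _) k n
    _ = (g ^ 2) ^ n * ((1 + |u|) ^ BG) ^ (2 * n) := by
      rw [mul_pow, mul_pow, ← pow_mul ((1 + |u|) ^ BG)]
    _ = (g ^ 2) ^ n * (1 + |u|) ^ (BG * (2 * n : ℕ)) := by
      rw [← Real.rpow_natCast ((1 + |u|) ^ BG), ← Real.rpow_mul hu0.le]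
    _ ≤ (g ^ 2) ^ n * (1 + |u|) ^ B := by
      refine mul_le_mul_of_nonneg_left ?_ (by positivity)
      refine Real.rpow_le_rpow_of_exponent_le (by linarith [abs_nonneg u]) ?_
      rw [hB]
      linarith

theorem exp_bd {ω : ℂ} (h : ‖ω‖ ≤ 1 / 8) : ‖cexp (ω ^ 2 / 2)‖ ≤ Real.exp 1 := by
  rw [Complex.norm_exp]
  apply Real.exp_le_exp.2
  refine (Complex.re_le_norm _).trans ?_
  rw [norm_div, norm_pow, norm_two]
  have : ‖ω‖ ^ 2 ≤ 1 := by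
    have := norm_nonneg ω
    nlinarith
  linarith

theorem half_bd {z : ℂ} {x : ℝ} (h : ‖z‖ ≤ 2 * x) : ‖z / 2‖ ≤ x := by
  rw [norm_div, norm_two]
  linarith

theorem GS_nonneg {K : Type} [Field K] [NumberField K] (M : ℝ) : 0 ≤ GS np (PM K M) M := by
  unfold GS
  refine Finset.sum_nonneg fun S _ => inv_nonneg.2 ?_
  unfold fS
  exact Finset.prod_nonneg fun P _ => by
    have := Pool.Agent.H94.CV.F1.two_le_np P
    linarith

end Pool.Agent.H31.CRG
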