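import Pool.Agent.H65.CRG.Defs

/-!
# Critical zeros in every even degree: targets, part R (Selberg's weights with a relation and with
shifts, the relations, the diagonal term)
-/

set_option autoImplicit false

open NumberField NumberField.InfinitePlace Complex Filter Topology MeasureTheory

namespace Pool.Agent.H31.CRG

open Pool.Agent.H28.RC Pool.Agent.H25.HK Pool.Agent.H37.CV Pool.Agent.H65.CRZ Pool.Agent.H65.CRG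

/-! ### Selberg's weights with a relation and with shifts -/

section Comb

variable {α : Type} (N : α → ℝ)

/-- `∏ (1 + (N(P)^a - 1) N(P) / (N(P) - 1))` -/
noncomputable def cR (a : ℂ) (n : Finset α) : ℂ :=
  ∏ P ∈ n, (1 + (((N P : ℝ) : ℂ) ^ a - 1) * ((N P / (N P - 1) : ℝ) : ℂ))

open scoped Classical in
/-- the alternating sum over the subsets of `R` -/
noncomputable def UR (A R D : Finset α) (M : ℝ) (a b : ℂ) : ℂ :=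
  ∑ n ∈ R.powerset, (-1) ^ n.card * cR N a n * Eb N A (D ∪ R) (M / (nS N D * nS N n)) b

end Comb

open scoped Classical in
/-- (S1R) the sums of the weights over the sets which contain `D`, with a relation. -/
def T_S1R : Prop :=
  ∀ (α : Type) (N : α → ℝ) (A D R : Finset α) (M : ℝ) (a b : ℂ), (∀ P, 2 ≤ N P) → 1 ≤ M →
    D ∈ DS N A M → R ⊆ A → Disjoint D R →
    ∑ S ∈ (DS N A M).filter (fun S => D ⊆ S), (xS N A M S : ℂ) *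
        (((nS N S : ℝ) : ℂ) ^ (-(1 + b)) * ((nS N (S ∩ R) : ℝ) : ℂ) ^ (1 + (a + b))) =
      (-1) ^ D.card * ((nS N D : ℝ) : ℂ) ^ (-b) / ((fS N D * GS N A M : ℝ) : ℂ) *
        UR N A R D M a b

open scoped Classical in
/-- (S2R) the form with a relation. -/
def T_S2R : Prop :=
  ∀ (α : Type) (N : α → ℝ) (A R₁ R₂ : Finset α) (M : ℝ) (a b : ℂ), (∀ P, 2 ≤ N P) → 1 ≤ M →
    R₁ ⊆ A → R₂ ⊆ A → Disjoint R₁ R₂ →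
    ∑ S ∈ DS N A M, ∑ T ∈ DS N A M, ((xS N A M S * xS N A M T : ℝ) : ℂ) *
      (((nS N S : ℝ) : ℂ) ^ (-(1 + b)) * ((nS N T : ℝ) : ℂ) ^ (-(1 + a)) *
        ((gg N R₁ R₂ S T : ℝ) : ℂ) ^ (1 + (a + b))) =
    (((GS N A M)⁻¹ ^ 2 : ℝ) : ℂ) *
      ∑ D ∈ (DS N A M).filter (fun D => Disjoint D (R₁ ∪ R₂)),
        hw N (a + b) D / ((fS N D : ℝ) : ℂ) * (UR N A R₁ D M a b * UR N A R₂ D M b a)

open scoped Classical in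
/-- (UB) bounds for the alternating sums. -/
def T_UB : Prop :=
  ∀ (K : Type) [Field K] [NumberField K] (C₀ : ℝ), 0 < C₀ → ∃ C : ℝ, 1 ≤ C ∧
    ∀ (M : ℝ) (a b : ℂ), 2 ≤ M → ‖a‖ ≤ C₀ / Real.log M → ‖b‖ ≤ C₀ / Real.log M →
      ∀ D R : Finset (PrI K), D ∈ DM K M → R ⊆ PM K M →
        ‖UR np (PM K M) R D M a b‖ ≤ C * 2 ^ R.card ∧
        (R.Nonempty → nS np D * nS np R ≤ M →
          ‖UR np (PM K M) R D M a b‖ ≤ C * 2 ^ R.card / Real.log M *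
            (1 + Real.log (nS np R) + ∑ P ∈ D, Real.log (np P) / (np P - 1)))

/-- (QFB) the form with a relation is small. -/
def T_QFB : Prop :=
  ∀ (K : Type) [Field K] [NumberField K] (C₀ : ℝ), 0 < C₀ → ∃ C : ℝ, 1 ≤ C ∧
    ∀ (M : ℝ) (a b : ℂ), 2 ≤ M → ‖a‖ ≤ C₀ / Real.log M → ‖b‖ ≤ C₀ / Real.log M →
      ∀ R₁ R₂ : Finset (PrI K), R₁ ⊆ PM K M → R₂ ⊆ PM K M → Disjoint R₁ R₂ → R₁.Nonempty →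
      ‖QF K M a b (a + b) R₁ R₂‖ ≤
        C * 2 ^ (R₁.card + R₂.card) * (1 + Real.log (nS np R₁)) / Real.log M ^ 2

/-! ### The relations -/

/-- (OP) the second moment opened. -/
def T_OP : Prop :=
  ∀ (K : Type) [Field K] [NumberField K] [IsTotallyComplex K] (m d : Ideal (𝓞 K)) (Q M : ℝ)
    (s₁ s₂ : ℂ) (c₁ c₂ : Finset (PrI K) → ℂ), m ≠ ⊥ → m ≤ d → 0 < Q → 1 ≤ M →
    (∀ P : PrI K, m ≤ P.1 → M < np P) → 3 / 8 ≤ s₁.re → s₁.re ≤ 5 / 8 → 3 / 8 ≤ s₂.re →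
    s₂.re ≤ 5 / 8 →
    Summable (fun p : CP m d => ‖Dn m Q M s₁ s₂ c₁ c₂ p.1.1 p.1.2‖) ∧
    ∑ᶠ ψ ∈ Ch m d, A2n Q s₁ s₂ ψ * (pol M c₁ ψ *
        pol M c₂ (fun I => (starRingEnd ℂ) (ψ I))) =
      nc m d * ∑' p : CP m d, Dn m Q M s₁ s₂ c₁ c₂ p.1.1 p.1.2

/-- (DT) the trivial bound of `Dn`. -/
def T_DT : Prop :=
  ∀ (K : Type) [Field K] [NumberField K] (δ : ℝ) (A : ℕ), 0 < δ → δ ≤ 1 / 8 →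
    ∃ C B : ℝ, 0 < C ∧ 0 ≤ B ∧
    ∀ (m : Ideal (𝓞 K)) (Q M : ℝ) (s₁ s₂ : ℂ) (c₁ c₂ : Finset (PrI K) → ℂ) (I J : Ideal (𝓞 K)),
      1 ≤ Q → 1 ≤ M → |s₁.re - 1 / 2| ≤ δ → |s₂.re - 1 / 2| ≤ δ →
      (∀ S, ‖c₁ S‖ ≤ nS np S ^ (-(1 / 2) : ℝ)) → (∀ S, ‖c₂ S‖ ≤ nS np S ^ (-(1 / 2) : ℝ)) →
      I ≠ ⊥ → J ≠ ⊥ → I ⊔ J = ⊤ →
      ‖Dn m Q M s₁ s₂ c₁ c₂ I J‖ ≤ C * (1 + |s₁.im| + |s₂.im|) ^ B *
        (nm I * nm J) ^ (-(1 / 2) : ℝ) * 2 ^ ((pf I).card + (pf J).card) *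
          (Q * M ^ 2) ^ (8 * δ) * min 1 ((Q * M ^ 2 / (nm I * nm J)) ^ A)

/-- (DL) the long relations. -/
def T_DL : Prop :=
  ∀ (K : Type) [Field K] [NumberField K] [IsCMField K],
    ∀ ε₁ : ℝ, 0 < ε₁ → ε₁ < 1 / 2 → ∃ δ B : ℝ, 0 < δ ∧ δ ≤ 1 / 8 ∧ 0 ≤ B ∧
    ∀ η c : ℝ, 0 < η → 0 < c → ∃ q₀ : ℕ, ∀ q : ℕ, q.Prime → q₀ ≤ q →
      ∀ (d : Ideal (𝓞 K)) (s₁ s₂ : ℂ) (c₁ c₂ : Finset (PrI K) → ℂ), qi K q ≤ d →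
      |s₁.re - 1 / 2| ≤ δ → |s₂.re - 1 / 2| ≤ δ →
      (∀ S, ‖c₁ S‖ ≤ nS np S ^ (-(1 / 2) : ℝ)) → (∀ S, ‖c₂ S‖ ≤ nS np S ^ (-(1 / 2) : ℝ)) →
      ∀ X : Finset (Ideal (𝓞 K) × Ideal (𝓞 K)),
      (∀ p ∈ X, p ∈ CP (qi K q) d ∧
        c * nm d ^ 2 ≤ nm p.1 * nm p.2 * (q : ℝ) ^ Module.finrank ℚ K) →
      (nc (qi K q) d : ℝ) *
        ∑ p ∈ X, ‖Dn (qi K q) (cB K (qi K q) ^ 2) (Mq ε₁ q) s₁ s₂ c₁ c₂ p.1 p.2‖ ≤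
          η * (1 + |s₁.im| + |s₂.im|) ^ B * nc (qi K q) (qi K q)

/-- (DS) all relations which come from ideals of the maximal real subfield, for proper
divisors. -/
def T_DS : Prop :=
  ∀ (K : Type) [Field K] [NumberField K] [IsCMField K],
    ∃ δ C B : ℝ, 0 < δ ∧ δ ≤ 1 / 8 ∧ 0 < C ∧ 0 ≤ B ∧ ∃ q₀ : ℕ,
    ∀ (ε₁ : ℝ) (q : ℕ), 0 < ε₁ → ε₁ < 1 / 2 → q.Prime → q₀ ≤ q →
      ∀ (s₁ s₂ : ℂ) (c₁ c₂ : Finset (PrI K) → ℂ), |s₁.re - 1 / 2| ≤ δ → |s₂.re - 1 / 2| ≤ δ →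
      (∀ S, ‖c₁ S‖ ≤ nS np S ^ (-(1 / 2) : ℝ)) → (∀ S, ‖c₂ S‖ ≤ nS np S ^ (-(1 / 2) : ℝ)) →
      ∀ X : Finset (Ideal (𝓞 K) × Ideal (𝓞 K)),
      (∀ p ∈ X, p.1 ⊔ p.2 = ⊤ ∧ ∃ y₁ y₂ : Ideal (𝓞 (Kp K)), Real2 p y₁ y₂) →
      ∑ p ∈ X, ‖Dn (qi K q) (cB K (qi K q) ^ 2) (Mq ε₁ q) s₁ s₂ c₁ c₂ p.1 p.2‖ ≤
        C * (1 + |s₁.im| + |s₂.im|) ^ B * (q : ℝ) ^ (1 / 4 : ℝ)

/-- (DE) the terms with a small relation. -/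
def T_DE : Prop :=
  ∀ (K : Type) [Field K] [NumberField K] [IsCMField K] (ε₁ c C₀ : ℝ), 0 < ε₁ → ε₁ < 1 / 2 →
    0 < c → 0 < C₀ → ∃ (δ C B : ℝ) (q₀ : ℕ), 0 < δ ∧ 0 < C ∧ 0 ≤ B ∧
    ∀ q : ℕ, q.Prime → q₀ ≤ q → ∀ (α β : ℂ) (u : ℝ), ‖α‖ ≤ C₀ / Real.log q →
      ‖β‖ ≤ C₀ / Real.log q → c / Real.log q ≤ ‖α + β‖ → ∀ A₁ A₂ : Ideal (𝓞 K), A₁ ≠ ⊥ →
      A₂ ≠ ⊥ → A₁ ≠ ⊤ → A₂ ≠ ⊤ → A₁ ⊔ A₂ = ⊤ → nm A₁ * nm A₂ ≤ (q : ℝ) ^ δ →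
      ‖Dn (qi K q) (cB K (qi K q) ^ 2) (Mq ε₁ q) (1 / 2 + α + u * I) (1 / 2 + β - u * I)
          (cu K (Mq ε₁ q) u) (cu K (Mq ε₁ q) (-u)) A₁ A₂‖ ≤
        C / Real.log q * (1 + |u|) ^ B * (nm A₁ * nm A₂) ^ (-(1 / 2) : ℝ) *
          2 ^ ((pf A₁).card + (pf A₂).card) * (1 + Real.log (nm A₁ * nm A₂))

/-- (DR) the real relations with the congruence. -/
def T_DR : Prop :=
  ∀ (K : Type) [Field K] [NumberField K] [IsCMField K] (ε₁ c C₀ : ℝ), 0 < ε₁ → ε₁ < 1 / 2 →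
    0 < c → 0 < C₀ → ∃ B : ℝ, 0 ≤ B ∧ ∀ η : ℝ, 0 < η → ∃ q₀ : ℕ, ∀ q : ℕ, q.Prime → q₀ ≤ q →
      ∀ (α β : ℂ) (u : ℝ), ‖α‖ ≤ C₀ / Real.log q → ‖β‖ ≤ C₀ / Real.log q →
      c / Real.log q ≤ ‖α + β‖ → ∀ X : Finset (Ideal (𝓞 K) × Ideal (𝓞 K)),
      (∀ p ∈ X, p ∈ CP (qi K q) (qi K q) ∧ p ≠ (⊤, ⊤) ∧
        ∃ y₁ y₂ : Ideal (𝓞 (Kp K)), Real2 p y₁ y₂ ∧ Cg q y₁ y₂) →
      ∑ p ∈ X, ‖Dn (qi K q) (cB K (qi K q) ^ 2) (Mq ε₁ q) (1 / 2 + α + u * I)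
          (1 / 2 + β - u * I) (cu K (Mq ε₁ q) u) (cu K (Mq ε₁ q) (-u)) p.1 p.2‖ ≤
        η * (1 + |u|) ^ B

/-- (SE) the second moment of the primitive characters. -/
def T_SE : Prop :=
  ∀ (K : Type) [Field K] [NumberField K] [IsCMField K] (ε₁ c C₀ : ℝ), 0 < ε₁ → ε₁ < 1 / 2 →
    0 < c → 0 < C₀ → ∃ B : ℝ, 0 ≤ B ∧ ∀ η : ℝ, 0 < η → ∃ q₀ : ℕ, ∀ q : ℕ, q.Prime → q₀ ≤ q →
      ∀ (α β : ℂ) (u : ℝ), ‖α‖ ≤ C₀ / Real.log q → ‖β‖ ≤ C₀ / Real.log q →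
      c / Real.log q ≤ ‖α + β‖ →
      ‖(∑ᶠ χ ∈ Pr K (qi K q), A2n (cB K (qi K q) ^ 2) (1 / 2 + α + u * I) (1 / 2 + β - u * I)
          χ.ψ * (pol (Mq ε₁ q) (cu K (Mq ε₁ q) u) χ.ψ *
            pol (Mq ε₁ q) (cu K (Mq ε₁ q) (-u)) (fun I => (starRingEnd ℂ) (χ.ψ I)))) -
        nc (qi K q) (qi K q) *
          Dn (qi K q) (cB K (qi K q) ^ 2) (Mq ε₁ q) (1 / 2 + α + u * I) (1 / 2 + β - u * I)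
            (cu K (Mq ε₁ q) u) (cu K (Mq ε₁ q) (-u)) ⊤ ⊤‖ ≤
        η * (1 + |u|) ^ B * nc (qi K q) (qi K q)

/-! ### The diagonal -/

/-- (DI) the diagonal term. -/
def T_DI : Prop :=
  ∀ (K : Type) [Field K] [NumberField K] [IsCMField K] (E : ℂ → ℂ) (ε₁ c C₀ : ℝ), IsE K E →
    0 < ε₁ → ε₁ < 1 / 2 → 0 < c → 0 < C₀ →
    ∃ B : ℝ, 0 ≤ B ∧ ∀ η : ℝ, 0 < η → ∃ q₀ : ℕ, ∀ q : ℕ, q.Prime → q₀ ≤ q →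
      ∀ (α β : ℂ) (u : ℝ), ‖α‖ ≤ C₀ / Real.log q → ‖β‖ ≤ C₀ / Real.log q →
      c / Real.log q ≤ ‖α + β‖ →
      ‖Dn (qi K q) (cB K (qi K q) ^ 2) (Mq ε₁ q) (1 / 2 + α + u * I) (1 / 2 + β - u * I)
            (cu K (Mq ε₁ q) u) (cu K (Mq ε₁ q) (-u)) ⊤ ⊤ +
          Xn (nrComplexPlaces K) (cB K (qi K q)) (1 / 2 + α + u * I) (1 / 2 + β - u * I) *
            Dn (qi K q) (cB K (qi K q) ^ 2) (Mq ε₁ q) (1 - (1 / 2 + β - u * I))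
              (1 - (1 / 2 + α + u * I)) (cu K (Mq ε₁ q) u) (cu K (Mq ε₁ q) (-u)) ⊤ ⊤ -
          (1 / (α + β) * E (1 + (α + β)) * Sd K (Mq ε₁ q) α β -
            Xn (nrComplexPlaces K) (cB K (qi K q)) (1 / 2 + α + u * I) (1 / 2 + β - u * I) *
              (1 / (α + β) * E (1 - (α + β)) * Sd K (Mq ε₁ q) (-β) (-α)))‖ ≤
        η * (1 + |u|) ^ B

end Pool.Agent.H31.CRG
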