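import Pool.Agent.H31.CRG.TR
import Pool.Agent.H65.CRG.TN
import Pool.Agent.H21.CRZ.DIb

/-!
# The terms with a small relation (row DE of the board `crg_modules`), part 1
-/

set_option autoImplicit false

open NumberField NumberField.InfinitePlace Complex Filter Topology MeasureTheory

namespace Pool.Agent.H31.CRG

open Pool.Agent.H28.RC Pool.Agent.H25.HK Pool.Agent.H37.CV Pool.Agent.H65.CRZ Pool.Agent.H65.CRG
open Pool.Agent.H94.CV.F1 (nm_top pf_top one_le_nS mem_DM xw_le)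
open Pool.Agent.H21.CRZ (cpw term_eq cpow_le cpow_le' nS_pos' re1 im1 re2 im2 U_le)

section

variable {K : Type} [Field K] [NumberField K]

/-- the coefficient -/
noncomputable def Wr (M : ℝ) (α β : ℂ) (R₁ R₂ S T : Finset (PrI K)) : ℂ :=
  ((xw K M S * xw K M T : ℝ) : ℂ) * (((nS np S : ℝ) : ℂ) ^ (-(1 + β)) *
    ((nS np T : ℝ) : ℂ) ^ (-(1 + α)) * ((gg np R₁ R₂ S T : ℝ) : ℂ) ^ (1 + (α + β)))

/-- the argument of the weight -/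
noncomputable def Yr (A w : ℝ) (R₁ R₂ S T : Finset (PrI K)) : ℝ :=
  A ^ 2 * gg np R₁ R₂ S T ^ 2 / (nS np S * nS np T * w)

theorem gg_ge {M : ℝ} (hM : 1 ≤ M) {R₁ R₂ : Finset (PrI K)} (hd : Disjoint R₁ R₂)
    {S T : Finset (PrI K)} (hS : S ∈ DM K M) (hT : T ∈ DM K M) :
    1 ≤ gg np R₁ R₂ S T ∧ gg np R₁ R₂ S T ^ 2 / (nS np S * nS np T) ≤ M ^ 2 :=
  (a_CB (PrI K) np (PM K M) R₁ R₂ M two_le_np hM hd).1 S hS T hT

theorem gg_le {M : ℝ} (hM : 1 ≤ M) {R₁ R₂ : Finset (PrI K)} (hd : Disjoint R₁ R₂)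
    {S T : Finset (PrI K)} (hS : S ∈ DM K M) (hT : T ∈ DM K M) :
    gg np R₁ R₂ S T ≤ M ^ 2 := by
  obtain ⟨h1, h2⟩ := gg_ge hM hd hS hT
  have hx := nS_pos' S
  have hy := nS_pos' T
  have hSM := (mem_DM hS).2
  have hTM := (mem_DM hT).2
  rw [div_le_iff₀ (by positivity)] at h2
  have h3 : nS np S * nS np T ≤ M * M := mul_le_mul hSM hTM hy.le (by linarith)
  have h4 : gg np R₁ R₂ S T ^ 2 ≤ (M ^ 2) ^ 2 := by
    calc gg np R₁ R₂ S T ^ 2 ≤ M ^ 2 * (nS np S * nS np T) := h2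
      _ ≤ M ^ 2 * (M * M) := by gcongr
      _ = (M ^ 2) ^ 2 := by ring
  exact le_of_sq_le_sq h4 (by positivity)

theorem Dn_eq (m : Ideal (𝓞 K)) {A M : ℝ} (hM : 1 ≤ M) (α β : ℂ) (u : ℝ) (X Y : Ideal (𝓞 K))
    (hd : Disjoint (pf X) (pf Y)) :
    Dn m (A ^ 2) M (1 / 2 + α + u * I) (1 / 2 + β - u * I) (cu K M u) (cu K M (-u)) X Y =
      ((nm X : ℝ) : ℂ) ^ (-(1 / 2 + α + u * I)) * ((nm Y : ℝ) : ℂ) ^ (-(1 / 2 + β - u * I)) *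
      ∑ S ∈ DM K M, ∑ T ∈ DM K M, Wr M α β (pf X) (pf Y) S T *
        Sn m (1 / 2 + α + u * I) (1 / 2 + β - u * I)
          (Yr A (nm X * nm Y) (pf X) (pf Y) S T) := by
  unfold Dn
  refine congrArg _ (Finset.sum_congr rfl fun S hS => Finset.sum_congr rfl fun T hT => ?_)
  have hg : 0 < gg np (pf X) (pf Y) S T := lt_of_lt_of_le one_pos (gg_ge hM hd hS hT).1
  refine congrArg₂ (· * ·) ?_ rfl
  have h := term_eq (nS_pos' S) (nS_pos' T) hg (xw K M S) (xw K M T) α β u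
  rw [add_assoc 1 α β] at h
  exact h

theorem Yr_pos {A M w : ℝ} (hA : 0 < A) (hw : 0 < w) (hM : 1 ≤ M) {R₁ R₂ : Finset (PrI K)}
    (hd : Disjoint R₁ R₂) {S T : Finset (PrI K)} (hS : S ∈ DM K M) (hT : T ∈ DM K M) :
    0 < Yr A w R₁ R₂ S T := by
  have hg : 0 < gg np R₁ R₂ S T := lt_of_lt_of_le one_pos (gg_ge hM hd hS hT).1
  have hx := nS_pos' S
  have hy := nS_pos' T
  unfold Yr
  positivity

theorem Yr_bd {A M w : ℝ} (hA : 0 < A) (hw : 1 ≤ w) (hM : 1 ≤ M) {R₁ R₂ : Finset (PrI K)}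
    (hd : Disjoint R₁ R₂) {S T : Finset (PrI K)} (hS : S ∈ DM K M) (hT : T ∈ DM K M) :
    A ^ 2 / (M ^ 2 * w) ≤ Yr A w R₁ R₂ S T ∧ Yr A w R₁ R₂ S T ≤ A ^ 2 * M ^ 2 := by
  obtain ⟨h1, h2⟩ := gg_ge hM hd hS hT
  have hx := nS_pos' S
  have hy := nS_pos' T
  have hSM := (mem_DM hS).2
  have hTM := (mem_DM hT).2
  have hw0 : 0 < w := by linarith
  have h3 : nS np S * nS np T ≤ M ^ 2 := by nlinarith
  have h4 : 1 ≤ gg np R₁ R₂ S T ^ 2 := one_le_pow₀ h1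
  unfold Yr
  constructor
  · rw [div_le_div_iff₀ (by positivity) (by positivity)]
    calc A ^ 2 * (nS np S * nS np T * w) ≤ A ^ 2 * (M ^ 2 * w) := by gcongr
      _ = A ^ 2 * 1 * (M ^ 2 * w) := by ring
      _ ≤ A ^ 2 * gg np R₁ R₂ S T ^ 2 * (M ^ 2 * w) := by gcongr
  · calc A ^ 2 * gg np R₁ R₂ S T ^ 2 / (nS np S * nS np T * w) =
          A ^ 2 * (gg np R₁ R₂ S T ^ 2 / (nS np S * nS np T)) / w := by
          field_simp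
      _ ≤ A ^ 2 * M ^ 2 / w := by gcongr
      _ ≤ A ^ 2 * M ^ 2 := div_le_self (by positivity) hw

theorem log_Yr {A M w : ℝ} (hA : 0 < A) (hw : 0 < w) (hM : 1 ≤ M) {R₁ R₂ : Finset (PrI K)}
    (hd : Disjoint R₁ R₂) {S T : Finset (PrI K)} (hS : S ∈ DM K M) (hT : T ∈ DM K M) :
    Real.log (Yr A w R₁ R₂ S T) = Real.log (A ^ 2 / w) + 2 * Real.log (gg np R₁ R₂ S T) -
      (Real.log (nS np S) + Real.log (nS np T)) := by
  have hg : 0 < gg np R₁ R₂ S T := lt_of_lt_of_le one_pos (gg_ge hM hd hS hT).1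
  have hx := nS_pos' S
  have hy := nS_pos' T
  unfold Yr
  rw [Real.log_div (by positivity) (by positivity), Real.log_mul (by positivity) (by positivity),
    Real.log_mul (by positivity) hw.ne', Real.log_mul hx.ne' hy.ne',
    Real.log_div (by positivity) hw.ne', Real.log_pow (n := 2) (x := gg np R₁ R₂ S T)]
  push_cast
  ring

/-- the polar terms -/
theorem polar_eq {A M w : ℝ} (hA : 0 < A) (hw : 0 < w) (hM : 1 ≤ M) (α β : ℂ)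
    {R₁ R₂ : Finset (PrI K)} (hd : Disjoint R₁ R₂) :
    ∑ S ∈ DM K M, ∑ T ∈ DM K M, Wr M α β R₁ R₂ S T *
        ((Yr A w R₁ R₂ S T : ℝ) : ℂ) ^ (-((α + β) / 2)) =
      ((A ^ 2 / w : ℝ) : ℂ) ^ (-((α + β) / 2)) *
        QF K M ((α - β) / 2) ((β - α) / 2) ((α - β) / 2 + (β - α) / 2) R₁ R₂ := by
  unfold QF
  simp only [Finset.mul_sum]
  refine Finset.sum_congr rfl fun S hS => Finset.sum_congr rfl fun T hT => ?_
  have hg : 0 < gg np R₁ R₂ S T := lt_of_lt_of_le one_pos (gg_ge hM hd hS hT).1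
  have hx := nS_pos' S
  have hy := nS_pos' T
  have hY := Yr_pos hA hw hM hd hS hT
  have hAw : 0 < A ^ 2 / w := by positivity
  unfold Wr
  rw [cpw hx, cpw hy, cpw hg, cpw hY, cpw hAw, cpw hx, cpw hy, cpw hg,
    log_Yr hA hw hM hd hS hT]
  generalize ((xw K M S * xw K M T : ℝ) : ℂ) = z
  have e : ∀ p₁ p₂ p₃ p₄ q₁ q₂ q₃ q₄ : ℂ, p₁ + p₂ + p₃ + p₄ = q₄ + (q₁ + q₂ + q₃) →
      z * (cexp p₁ * cexp p₂ * cexp p₃) * cexp p₄ =
        cexp q₄ * (z * (cexp q₁ * cexp q₂ * cexp q₃)) := by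
    intro p₁ p₂ p₃ p₄ q₁ q₂ q₃ q₄ h
    have h2 := congrArg cexp h
    rw [Complex.exp_add, Complex.exp_add, Complex.exp_add, Complex.exp_add q₄,
      Complex.exp_add (q₁ + q₂), Complex.exp_add q₁] at h2
    linear_combination z * h2
  apply e
  push_cast
  ring

theorem Wr_le {M κ : ℝ} (hM : 1 ≤ M) {α β : ℂ} (hα : ‖α‖ * Real.log M ≤ κ)
    (hβ : ‖β‖ * Real.log M ≤ κ) {R₁ R₂ : Finset (PrI K)} (hd : Disjoint R₁ R₂)
    {S T : Finset (PrI K)} (hS : S ∈ DM K M) (hT : T ∈ DM K M) :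
    ‖Wr M α β R₁ R₂ S T‖ ≤
      Real.exp (6 * κ) * (gg np R₁ R₂ S T / (nS np S * nS np T)) := by
  have hx := one_le_nS S
  have hy := one_le_nS T
  have hg := (gg_ge hM hd hS hT).1
  have hgM := gg_le hM hd hS hT
  have hSM := (mem_DM hS).2
  have hTM := (mem_DM hT).2
  have h1 := xw_le a_CX hM hS
  have h2 := xw_le a_CX hM hT
  have h3 := cpow_le hx hSM hβ
  have h4 := cpow_le hy hTM hα
  have hα' : ‖α‖ * Real.log (M ^ 2) ≤ 2 * κ := by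
    rw [Real.log_pow]
    push_cast
    linarith
  have hβ' : ‖β‖ * Real.log (M ^ 2) ≤ 2 * κ := by
    rw [Real.log_pow]
    push_cast
    linarith
  have h5 := cpow_le' hg hgM hα' hβ'
  rw [add_assoc] at h5
  unfold Wr
  rw [norm_mul, norm_mul, norm_mul, Complex.norm_real, Real.norm_eq_abs, abs_mul]
  have h6 : |xw K M S| * |xw K M T| ≤ 1 := mul_le_one₀ h1 (abs_nonneg _) h2
  have hx0 := nS_pos' S
  have hy0 := nS_pos' T
  have hg0 : 0 < gg np R₁ R₂ S T := by linarith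
  calc |xw K M S| * |xw K M T| * (‖((nS np S : ℝ) : ℂ) ^ (-(1 + β))‖ *
        ‖((nS np T : ℝ) : ℂ) ^ (-(1 + α))‖ * ‖((gg np R₁ R₂ S T : ℝ) : ℂ) ^ (1 + (α + β))‖) ≤
      1 * ((nS np S)⁻¹ * Real.exp κ * ((nS np T)⁻¹ * Real.exp κ) *
        (gg np R₁ R₂ S T * Real.exp (2 * (2 * κ)))) := by
        refine mul_le_mul h6 ?_ (by positivity) zero_le_one
        refine mul_le_mul (mul_le_mul h3 h4 (norm_nonneg _) (by positivity)) h5 (norm_nonneg _)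
          (by positivity)
    _ = Real.exp (6 * κ) * (gg np R₁ R₂ S T / (nS np S * nS np T)) := by
        have e : Real.exp (6 * κ) = Real.exp κ * Real.exp κ * Real.exp (2 * (2 * κ)) := by
          rw [← Real.exp_add, ← Real.exp_add]
          ring_nf
        rw [e]
        field_simp

/-- one side with a relation -/
theorem sideR (hSA : Pool.Agent.H65.CRG.T_SA) (hSC : Pool.Agent.H65.CRG.T_SC) (δ a : ℝ)
    (hδ : 0 < δ) (hδ' : δ ≤ 1 / 16) (ha : 2 * δ ≤ a) (E : ℂ → ℂ) (hE : IsE K E) :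
    ∃ C B : ℝ, 0 < C ∧ 0 ≤ B ∧ ∀ (q : ℕ) (A M κ w : ℝ) (α β : ℂ) (u : ℝ)
      (R₁ R₂ : Finset (PrI K)), q.Prime → 0 < A →
      1 ≤ M → 1 ≤ w → ‖α‖ ≤ δ → ‖β‖ ≤ δ → α + β ≠ 0 → ‖α‖ * Real.log M ≤ κ →
      ‖β‖ * Real.log M ≤ κ → Disjoint R₁ R₂ →
      ‖(∑ S ∈ DM K M, ∑ T ∈ DM K M, Wr M α β R₁ R₂ S T *
          Sn (qi K q) (1 / 2 + α + u * I) (1 / 2 + β - u * I) (Yr A w R₁ R₂ S T)) -
        1 / (α + β) * (E (1 + (α + β)) * QF K M α β (α + β) R₁ R₂ -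
          (rho K : ℂ) * Gq (1 / 2 + α + u * I) (1 / 2 + β - u * I) (-((α + β) / 2)) ^
            nrComplexPlaces K * cexp ((α + β) ^ 2 / 2) *
            (((A ^ 2 / w : ℝ) : ℂ) ^ (-((α + β) / 2)) *
              QF K M ((α - β) / 2) ((β - α) / 2) ((α - β) / 2 + (β - α) / 2) R₁ R₂))‖ ≤
      C * (1 + |u|) ^ B * Real.exp (6 * κ) * (2 ^ (R₁.card + R₂.card) *
        GS np (PM K M) M ^ 3) *
        ((A ^ 2 / (M ^ 2 * w)) ^ (-(1 / 8) : ℝ) / ‖α + β‖ +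
          (A ^ 2 * M ^ 2) ^ a * (q : ℝ) ^ (-(1 - 2 * δ + 2 * a))) := by
  obtain ⟨C₁, B₁, hC₁, hB₁, h1⟩ := hSA K E hE
  obtain ⟨C₂, B₂, hC₂, hB₂, h2⟩ := hSC K δ a hδ (by linarith) ha
  refine ⟨C₁ * 3 ^ B₁ + C₂ * 3 ^ B₂, max B₁ B₂, by positivity, le_max_of_le_left hB₁, ?_⟩
  intro q A M κ w α β u R₁ R₂ hq hA hM hw hα hβ hω hακ hβκ hd
  have hα16 : ‖α‖ ≤ 1 / 16 := hα.trans hδ'
  have hβ16 : ‖β‖ ≤ 1 / 16 := hβ.trans hδ'
  obtain ⟨s₁, hs₁⟩ : ∃ s₁, s₁ = 1 / 2 + α + u * I := ⟨_, rfl⟩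
  obtain ⟨s₂, hs₂⟩ : ∃ s₂, s₂ = 1 / 2 + β - u * I := ⟨_, rfl⟩
  have hr1 : |s₁.re - 1 / 2| ≤ δ := by
    rw [hs₁, re1, add_sub_cancel_left]
    exact (Complex.abs_re_le_norm α).trans hα
  have hr2 : |s₂.re - 1 / 2| ≤ δ := by
    rw [hs₂, re2, add_sub_cancel_left]
    exact (Complex.abs_re_le_norm β).trans hβ
  have hsum : s₁ + s₂ = 1 + (α + β) := by
    rw [hs₁, hs₂]
    ring
  have hω8 : ‖α + β‖ ≤ 1 / 8 := (norm_add_le _ _).trans (by linarith)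
  have hU : 1 + |s₁.im| + |s₂.im| ≤ 3 * (1 + |u|) := by
    rw [hs₁, hs₂]
    exact U_le hα16 hβ16 u
  have hU0 : 0 ≤ 1 + |s₁.im| + |s₂.im| := by positivity
  have hu1 : 1 ≤ 1 + |u| := by linarith [abs_nonneg u]
  have hn : 0 < ‖α + β‖ := norm_pos_iff.2 hω
  have hUp : ∀ B : ℝ, 0 ≤ B → B ≤ max B₁ B₂ →
      (1 + |s₁.im| + |s₂.im|) ^ B ≤ 3 ^ B * (1 + |u|) ^ max B₁ B₂ := by
    intro B hB hBm
    calc (1 + |s₁.im| + |s₂.im|) ^ B ≤ (3 * (1 + |u|)) ^ B := Real.rpow_le_rpow hU0 hU hB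
      _ = 3 ^ B * (1 + |u|) ^ B := Real.mul_rpow (by norm_num) (by linarith)
      _ ≤ 3 ^ B * (1 + |u|) ^ max B₁ B₂ :=
        mul_le_mul_of_nonneg_left (Real.rpow_le_rpow_of_exponent_le hu1 hBm) (by positivity)
  have hU1 := hUp B₁ hB₁ (le_max_left _ _)
  have hU2 := hUp B₂ hB₂ (le_max_right _ _)
  obtain ⟨W, hW⟩ : ∃ W, W = (1 + |u|) ^ max B₁ B₂ := ⟨_, rfl⟩
  have hW0 : 0 < W := by rw [hW]; positivity
  rw [← hW] at hU1 hU2 ⊢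
  have hM0 : 0 < M := by linarith
  have hw0 : 0 < w := by linarith
  obtain ⟨x, hx⟩ : ∃ x, x = (A ^ 2 / (M ^ 2 * w)) ^ (-(1 / 8) : ℝ) / ‖α + β‖ := ⟨_, rfl⟩
  obtain ⟨y, hy⟩ : ∃ y, y = (A ^ 2 * M ^ 2) ^ a * (q : ℝ) ^ (-(1 - 2 * δ + 2 * a)) := ⟨_, rfl⟩
  have hx0 : 0 ≤ x := by rw [hx]; positivity
  have hy0 : 0 ≤ y := by rw [hy]; positivity
  rw [← hx, ← hy]
  have ha0 : 0 ≤ a := by linarith
  -- one pair
  have hterm : ∀ S ∈ DM K M, ∀ T ∈ DM K M,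
      ‖Sn (qi K q) s₁ s₂ (Yr A w R₁ R₂ S T) - 1 / (α + β) * (E (1 + (α + β)) -
        (rho K : ℂ) * Gq s₁ s₂ (-((α + β) / 2)) ^ nrComplexPlaces K *
          cexp ((α + β) ^ 2 / 2) *
          ((Yr A w R₁ R₂ S T : ℝ) : ℂ) ^ (-((α + β) / 2)))‖ ≤
      (C₁ * 3 ^ B₁ + C₂ * 3 ^ B₂) * W * (x + y) := by
    intro S hS T hT
    have hY := Yr_pos hA hw0 hM hd hS hT
    obtain ⟨hY1, hY2⟩ := Yr_bd hA hw hM hd hS hT
    obtain ⟨Y, hYd⟩ : ∃ Y, Y = Yr A w R₁ R₂ S T := ⟨_, rfl⟩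
    rw [← hYd] at hY hY1 hY2 ⊢
    have k1 := h1 s₁ s₂ (α + β) Y (hr1.trans hδ') (hr2.trans hδ') hsum hω hω8 hY
    have k2 := h2 q s₁ s₂ Y hq hr1 hr2 hY
    have k3 : Y ^ (-(1 / 8) : ℝ) / ‖α + β‖ ≤ x := by
      rw [hx]
      exact div_le_div_of_nonneg_right
        (Real.rpow_le_rpow_of_nonpos (by positivity) hY1 (by norm_num)) hn.le
    have k4 : Y ^ a * (q : ℝ) ^ (-(1 - 2 * δ + 2 * a)) ≤ y := by
      rw [hy]
      exact mul_le_mul_of_nonneg_right (Real.rpow_le_rpow hY.le hY2 ha0)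
        (by positivity)
    have k5 : C₁ * (1 + |s₁.im| + |s₂.im|) ^ B₁ * Y ^ (-(1 / 8) : ℝ) / ‖α + β‖ ≤
        C₁ * 3 ^ B₁ * W * x := by
      rw [mul_div_assoc]
      calc C₁ * (1 + |s₁.im| + |s₂.im|) ^ B₁ * (Y ^ (-(1 / 8) : ℝ) / ‖α + β‖) ≤
          C₁ * (3 ^ B₁ * W) * x :=
            mul_le_mul (mul_le_mul_of_nonneg_left hU1 hC₁.le) k3 (by positivity) (by positivity)
        _ = C₁ * 3 ^ B₁ * W * x := by ring
    have k6 : C₂ * (1 + |s₁.im| + |s₂.im|) ^ B₂ * Y ^ a *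
        (q : ℝ) ^ (-(1 - 2 * δ + 2 * a)) ≤ C₂ * 3 ^ B₂ * W * y := by
      rw [mul_assoc (C₂ * _)]
      calc C₂ * (1 + |s₁.im| + |s₂.im|) ^ B₂ *
            (Y ^ a * (q : ℝ) ^ (-(1 - 2 * δ + 2 * a))) ≤
          C₂ * (3 ^ B₂ * W) * y :=
            mul_le_mul (mul_le_mul_of_nonneg_left hU2 hC₂.le) k4 (by positivity) (by positivity)
        _ = C₂ * 3 ^ B₂ * W * y := by ring
    obtain ⟨P, hP⟩ : ∃ P, P = 1 / (α + β) * (E (1 + (α + β)) -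
        (rho K : ℂ) * Gq s₁ s₂ (-((α + β) / 2)) ^ nrComplexPlaces K *
          cexp ((α + β) ^ 2 / 2) * (Y : ℂ) ^ (-((α + β) / 2))) := ⟨_, rfl⟩
    rw [← hP] at k1 ⊢
    have e : Sn (qi K q) s₁ s₂ Y - P =
        (Sn (qi K q) s₁ s₂ Y - Sn (K := K) ⊤ s₁ s₂ Y) + (Sn (K := K) ⊤ s₁ s₂ Y - P) := by ring
    rw [e]
    refine (norm_add_le _ _).trans ?_
    have k7 : C₁ * 3 ^ B₁ * W * x + C₂ * 3 ^ B₂ * W * y ≤
        (C₁ * 3 ^ B₁ + C₂ * 3 ^ B₂) * W * (x + y) := by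
      have p1 : 0 ≤ C₁ * 3 ^ B₁ * W * y := by positivity
      have p2 : 0 ≤ C₂ * 3 ^ B₂ * W * x := by positivity
      have e2 : (C₁ * 3 ^ B₁ + C₂ * 3 ^ B₂) * W * (x + y) =
        C₁ * 3 ^ B₁ * W * x + C₂ * 3 ^ B₂ * W * y + C₁ * 3 ^ B₁ * W * y +
          C₂ * 3 ^ B₂ * W * x := by ring
      linarith
    linarith
  -- the sum
  have hpol := polar_eq (K := K) hA hw0 hM α β hd
  obtain ⟨G, hG⟩ : ∃ G, G = (rho K : ℂ) * Gq s₁ s₂ (-((α + β) / 2)) ^ nrComplexPlaces K *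
    cexp ((α + β) ^ 2 / 2) := ⟨_, rfl⟩
  rw [← hs₁, ← hs₂, ← hG]
  rw [← hG] at hterm
  have e1 : (∑ S ∈ DM K M, ∑ T ∈ DM K M, Wr M α β R₁ R₂ S T *
          Sn (qi K q) s₁ s₂ (Yr A w R₁ R₂ S T)) -
        1 / (α + β) * (E (1 + (α + β)) * QF K M α β (α + β) R₁ R₂ -
          G * (((A ^ 2 / w : ℝ) : ℂ) ^ (-((α + β) / 2)) *
              QF K M ((α - β) / 2) ((β - α) / 2) ((α - β) / 2 + (β - α) / 2) R₁ R₂)) =
      ∑ S ∈ DM K M, ∑ T ∈ DM K M, Wr M α β R₁ R₂ S T *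
        (Sn (qi K q) s₁ s₂ (Yr A w R₁ R₂ S T) - 1 / (α + β) * (E (1 + (α + β)) -
        G * ((Yr A w R₁ R₂ S T : ℝ) : ℂ) ^ (-((α + β) / 2)))) := by
    rw [← hpol]
    have e3 : ∀ S T, Wr M α β R₁ R₂ S T * (Sn (qi K q) s₁ s₂ (Yr A w R₁ R₂ S T) -
        1 / (α + β) * (E (1 + (α + β)) -
        G * ((Yr A w R₁ R₂ S T : ℝ) : ℂ) ^ (-((α + β) / 2)))) =
        Wr M α β R₁ R₂ S T * Sn (qi K q) s₁ s₂ (Yr A w R₁ R₂ S T) -
        (1 / (α + β) * E (1 + (α + β)) * Wr M α β R₁ R₂ S T -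
          1 / (α + β) * G *
          (Wr M α β R₁ R₂ S T * ((Yr A w R₁ R₂ S T : ℝ) : ℂ) ^ (-((α + β) / 2)))) := by
      intro S T
      ring
    have e4 : QF K M α β (α + β) R₁ R₂ =
      ∑ S ∈ DM K M, ∑ T ∈ DM K M, Wr M α β R₁ R₂ S T := rfl
    rw [e4]
    simp only [e3, Finset.sum_sub_distrib, ← Finset.mul_sum]
    ring
  rw [e1]
  refine (norm_sum_le _ _).trans ((Finset.sum_le_sum fun S _ => norm_sum_le _ _).trans ?_)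
  have hV0 : 0 ≤ (C₁ * 3 ^ B₁ + C₂ * 3 ^ B₂) * W * (x + y) := by positivity
  calc ∑ S ∈ DM K M, ∑ T ∈ DM K M, ‖Wr M α β R₁ R₂ S T *
        (Sn (qi K q) s₁ s₂ (Yr A w R₁ R₂ S T) - 1 / (α + β) * (E (1 + (α + β)) -
        G * ((Yr A w R₁ R₂ S T : ℝ) : ℂ) ^ (-((α + β) / 2))))‖ ≤
      ∑ S ∈ DM K M, ∑ T ∈ DM K M, (Real.exp (6 * κ) *
        ((C₁ * 3 ^ B₁ + C₂ * 3 ^ B₂) * W * (x + y))) *
          (gg np R₁ R₂ S T / (nS np S * nS np T)) := by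
        refine Finset.sum_le_sum fun S hS => Finset.sum_le_sum fun T hT => ?_
        rw [norm_mul]
        have k1 := Wr_le hM hακ hβκ hd hS hT
        have k2 := hterm S hS T hT
        have k3 := mul_le_mul k1 k2 (norm_nonneg _) ((norm_nonneg _).trans k1)
        refine k3.trans (le_of_eq ?_)
        ring
    _ = (Real.exp (6 * κ) * ((C₁ * 3 ^ B₁ + C₂ * 3 ^ B₂) * W * (x + y))) *
        ∑ S ∈ DM K M, ∑ T ∈ DM K M, (gg np R₁ R₂ S T / (nS np S * nS np T)) := by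
        simp only [Finset.mul_sum]
    _ ≤ (Real.exp (6 * κ) * ((C₁ * 3 ^ B₁ + C₂ * 3 ^ B₂) * W * (x + y))) *
        (2 ^ (R₁.card + R₂.card) * GS np (PM K M) M ^ 3) := by
        refine mul_le_mul_of_nonneg_left ?_ (by positivity)
        exact (a_CB (PrI K) np (PM K M) R₁ R₂ M two_le_np hM hd).2
    _ = _ := by ring

end

end Pool.Agent.H31.CRG
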